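import Pool.Agent.TH218.UI3

set_option autoImplicit false

open Set Filter Topology Metric MeasureTheory

namespace Pool.Agent.TH218.UI

lemma norm_sin_le (w : ℂ) : ‖Complex.sin w‖ ≤ Real.exp |w.im| := by
  rw [Complex.sin]
  have h1 : ‖Complex.exp (-w * Complex.I)‖ ≤ Real.exp |w.im| := by
    rw [Complex.norm_exp]
    apply Real.exp_le_exp.2
    simp only [Complex.mul_re, Complex.neg_re, Complex.I_re, mul_zero, Complex.neg_im,
      Complex.I_im, mul_one, zero_sub, neg_neg]
    exact le_abs_self _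
  have h2 : ‖Complex.exp (w * Complex.I)‖ ≤ Real.exp |w.im| := by
    rw [Complex.norm_exp]
    apply Real.exp_le_exp.2
    simp only [Complex.mul_re, Complex.I_re, mul_zero, Complex.I_im, mul_one, zero_sub]
    exact neg_le_abs _
  rw [norm_div, norm_mul, Complex.norm_I, mul_one]
  have h3 := norm_sub_le (Complex.exp (-w * Complex.I)) (Complex.exp (w * Complex.I))
  have h4 : ‖(2:ℂ)‖ = 2 := by simp
  rw [h4]
  linarith

lemma leib {u v : ℂ → ℂ} (hu : Differentiable ℂ u) (hv : Differentiable ℂ v) (k : ℕ) (x : ℂ) :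
    iteratedDeriv k (fun z => u z * v z) x = ∑ i ∈ Finset.range (k + 1),
      (k.choose i : ℂ) * iteratedDeriv i u x * iteratedDeriv (k - i) v x :=
  iteratedDeriv_fun_mul hu.contDiff.contDiffAt hv.contDiff.contDiffAt

section data

variable {a : ℕ → ℂ} {p : ℕ → ℕ} {N : ℝ}

lemma prod_off {t s : ℕ × ℕ} {h g : ℂ → ℂ} (hh : Differentiable ℂ h) (hg : Differentiable ℂ g)
    (ih : Interp a p h (delta t)) (ig : Interp a p g (delta s)) (hp : ∀ n, 1 ≤ p n) {m : ℕ}
    (ht : m ≠ t.1) (hs : m ≠ s.1) {k : ℕ} (hk : k ≤ p m) :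
    iteratedDeriv k (fun z => h z * g z) (a m) = 0 := by
  have h0 : ∀ i < p m, iteratedDeriv i h (a m) = 0 := by
    intro i hi
    have := ih m i hi
    rw [delta, if_neg (fun h => ht (by rw [← h]))] at this
    rw [div_eq_zero_iff] at this
    exact this.resolve_right (by exact_mod_cast Nat.factorial_ne_zero i)
  have g0 : ∀ i < p m, iteratedDeriv i g (a m) = 0 := by
    intro i hi
    have := ig m i hi
    rw [delta, if_neg (fun h => hs (by rw [← h]))] at this
    rw [div_eq_zero_iff] at this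
    exact this.resolve_right (by exact_mod_cast Nat.factorial_ne_zero i)
  rw [leib hh hg]
  apply Finset.sum_eq_zero
  intro i hi
  rw [Finset.mem_range] at hi
  by_cases hlt : i < p m
  · rw [h0 i hlt]; ring
  · have hp1 := hp m
    rw [g0 (k - i) (by omega)]; ring

lemma prod_on {m : ℕ} {h g : ℂ → ℂ} (hh : Differentiable ℂ h) (hg : Differentiable ℂ g)
    (ih : Interp a p h (delta (m, p m - 1))) (ig : Interp a p g (delta (m, 0)))
    (hp : ∀ n, 1 ≤ p n) {k : ℕ} (hk : k ≤ p m - 1) :
    iteratedDeriv k (fun z => h z * g z) (a m) = if k = p m - 1 then ((p m - 1).factorial : ℂ)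
      else 0 := by
  have hp1 := hp m
  have h0 : ∀ i < p m - 1, iteratedDeriv i h (a m) = 0 := by
    intro i hi
    have := ih m i (by omega)
    rw [delta, if_neg (fun h => by
      have := congrArg Prod.snd h
      simp only at this
      omega)] at this
    rw [div_eq_zero_iff] at this
    exact this.resolve_right (by exact_mod_cast Nat.factorial_ne_zero i)
  have h1 : iteratedDeriv (p m - 1) h (a m) = ((p m - 1).factorial : ℂ) := by
    have := ih m (p m - 1) (by omega)
    rw [delta, if_pos rfl, div_eq_one_iff_eq (by exact_mod_cast Nat.factorial_ne_zero _)] at this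
    exact this
  have g1 : g (a m) = 1 := by
    have := ig m 0 (by omega)
    simpa [delta, iteratedDeriv_zero] using this
  rw [leib hh hg]
  split_ifs with hkp
  · rw [Finset.sum_range_succ, Finset.sum_eq_zero, zero_add]
    · rw [hkp, h1]
      simp [iteratedDeriv_zero, g1]
    · intro i hi
      rw [Finset.mem_range] at hi
      rw [h0 i (by omega)]; ring
  · apply Finset.sum_eq_zero
    intro i hi
    rw [Finset.mem_range] at hi
    rw [h0 i (by omega)]; ring

/-- the data of the construction -/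
structure Data (a : ℕ → ℂ) (p : ℕ → ℕ) (N : ℝ) (h g : ℕ → ℂ → ℂ) : Prop where
  hp : ∀ n, 1 ≤ p n
  hN : 0 < N
  dh : ∀ n, Differentiable ℂ (h n)
  dg : ∀ n, Differentiable ℂ (g n)
  bh : ∀ n, Bd N (h n)
  bg : ∀ n, Bd N (g n)
  ih : ∀ n, Interp a p (h n) (delta (n, p n - 1))
  ig : ∀ n, Interp a p (g n) (delta (n, 0))
  sm : Summable fun n => Real.exp (-((2 * N + 4) * rho (a n)))

/-- the linear factor -/
noncomputable def u (a : ℕ → ℂ) (N : ℝ) (n : ℕ) (z : ℂ) : ℂ :=
  (Real.exp (-((2 * N + 5) * rho (a n))) : ℂ) * Complex.sin (z - a n)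

/-- the terms of the sum -/
noncomputable def T (a : ℕ → ℂ) (N : ℝ) (h g : ℕ → ℂ → ℂ) (n : ℕ) (z : ℂ) : ℂ :=
  u a N n z * (h n z * g n z)

lemma diff_u (a : ℕ → ℂ) (N : ℝ) (n : ℕ) : Differentiable ℂ (u a N n) := by
  unfold u
  fun_prop

lemma u_zero (a : ℕ → ℂ) (N : ℝ) (n : ℕ) : u a N n (a n) = 0 := by simp [u]

lemma u_one (a : ℕ → ℂ) (N : ℝ) (n : ℕ) :
    iteratedDeriv 1 (u a N n) (a n) = (Real.exp (-((2 * N + 5) * rho (a n))) : ℂ) := by
  rw [iteratedDeriv_one]
  have h1 : HasDerivAt (u a N n)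
      ((Real.exp (-((2 * N + 5) * rho (a n))) : ℂ) * (Complex.cos (a n - a n) * 1)) (a n) := by
    unfold u
    exact (((hasDerivAt_id (a n)).sub_const (a n)).csin).const_mul _
  rw [h1.deriv]
  simp

variable {h g : ℕ → ℂ → ℂ} (D : Data a p N h g)
include D

lemma diff_T (n : ℕ) : Differentiable ℂ (T a N h g n) := by
  unfold T
  exact (diff_u a N n).mul ((D.dh n).mul (D.dg n))

lemma bd_T (n : ℕ) (z : ℂ) : ‖T a N h g n z‖ ≤
    Real.exp (-((2 * N + 4) * rho (a n))) * (N ^ 2 * Real.exp ((2 * N + 1) * rho z)) := by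
  have hN := D.hN
  unfold T u
  rw [norm_mul, norm_mul, norm_mul, Complex.norm_real, Real.norm_of_nonneg (Real.exp_pos _).le]
  have h1 : ‖Complex.sin (z - a n)‖ ≤ Real.exp (rho z) * Real.exp (rho (a n)) := by
    refine (norm_sin_le _).trans ?_
    rw [← Real.exp_add]
    apply Real.exp_le_exp.2
    rw [Complex.sub_im]
    have := abs_sub z.im (a n).im
    linarith [im_le_rho z, im_le_rho (a n)]
  have h2 := D.bh n z
  have h3 := D.bg n z
  have h4 : ‖h n z‖ * ‖g n z‖ ≤ (N * Real.exp (N * rho z)) * (N * Real.exp (N * rho z)) :=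
    mul_le_mul h2 h3 (norm_nonneg _) (by positivity)
  calc Real.exp (-((2 * N + 5) * rho (a n))) * ‖Complex.sin (z - a n)‖ * (‖h n z‖ * ‖g n z‖)
      ≤ Real.exp (-((2 * N + 5) * rho (a n))) * (Real.exp (rho z) * Real.exp (rho (a n))) *
        ((N * Real.exp (N * rho z)) * (N * Real.exp (N * rho z))) := by
        apply mul_le_mul _ h4 (by positivity) (by positivity)
        exact mul_le_mul_of_nonneg_left h1 (Real.exp_pos _).le
    _ = _ := by
        have e1 : Real.exp (-((2 * N + 4) * rho (a n))) =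
            Real.exp (-((2 * N + 5) * rho (a n))) * Real.exp (rho (a n)) := by
          rw [← Real.exp_add]; congr 1; ring
        have e2 : Real.exp ((2 * N + 1) * rho z) =
            Real.exp (rho z) * (Real.exp (N * rho z) * Real.exp (N * rho z)) := by
          rw [← Real.exp_add, ← Real.exp_add]; congr 1; ring
        rw [e1, e2]; ring

lemma T_off {n m : ℕ} (hnm : m ≠ n) {k : ℕ} (hk : k ≤ p m) :
    iteratedDeriv k (T a N h g n) (a m) = 0 := by
  unfold T
  rw [leib (diff_u a N n) ((D.dh n).fun_mul (D.dg n))]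
  apply Finset.sum_eq_zero
  intro i _
  rw [prod_off (D.dh n) (D.dg n) (D.ih n) (D.ig n) D.hp (m := m) hnm hnm (by omega)]
  ring

lemma T_on_lt (m : ℕ) {k : ℕ} (hk : k < p m) :
    iteratedDeriv k (T a N h g m) (a m) = 0 := by
  unfold T
  rw [leib (diff_u a N m) ((D.dh m).fun_mul (D.dg m))]
  apply Finset.sum_eq_zero
  intro i hi
  rw [Finset.mem_range] at hi
  rcases Nat.eq_zero_or_pos i with h0 | h0
  · subst h0
    rw [iteratedDeriv_zero, u_zero]; ring
  · rw [prod_on (D.dh m) (D.dg m) (D.ih m) (D.ig m) D.hp (by omega), if_neg (by omega)]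
    ring

lemma T_on_eq (m : ℕ) :
    iteratedDeriv (p m) (T a N h g m) (a m) =
      (Real.exp (-((2 * N + 5) * rho (a m))) : ℂ) * ((p m).factorial : ℂ) := by
  have hp1 := D.hp m
  unfold T
  rw [leib (diff_u a N m) ((D.dh m).fun_mul (D.dg m))]
  rw [Finset.sum_eq_single 1]
  · rw [u_one, prod_on (D.dh m) (D.dg m) (D.ih m) (D.ig m) D.hp (by omega), if_pos rfl,
      Nat.choose_one_right]
    have e : (p m).factorial = p m * (p m - 1).factorial := (Nat.mul_factorial_pred (by omega)).symm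
    rw [e]
    push_cast
    ring
  · intro i hi hi1
    rw [Finset.mem_range] at hi
    rcases Nat.eq_zero_or_pos i with h0 | h0
    · subst h0
      rw [iteratedDeriv_zero, u_zero]; ring
    · rw [prod_on (D.dh m) (D.dg m) (D.ih m) (D.ig m) D.hp (by omega), if_neg (by omega)]
      ring
  · intro h1
    exact absurd (Finset.mem_range.2 (by omega)) h1

/-- the function -/
theorem exists_f : ∃ f : ℂ → ℂ, Differentiable ℂ f ∧
    (∃ A > (0:ℝ), ∃ B > (0:ℝ), ∀ z : ℂ, ‖f z‖ ≤ A * Real.exp (B * rho z)) ∧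
    (∀ m, ∀ k < p m, iteratedDeriv k f (a m) = 0) ∧
    ∀ m, iteratedDeriv (p m) f (a m) =
      (Real.exp (-((2 * N + 5) * rho (a m))) : ℂ) * ((p m).factorial : ℂ) := by
  have hN := D.hN
  set w : ℕ → ℝ := fun n => Real.exp (-((2 * N + 4) * rho (a n))) with hw
  set W : ℝ := ∑' n, w n with hW
  have hw0 : ∀ n, 0 ≤ w n := fun n => (Real.exp_pos _).le
  have hW0 : 0 ≤ W := tsum_nonneg hw0
  have hbd := bd_T D
  set f : ℂ → ℂ := fun z => ∑' n, T a N h g n z with hf
  set F : ℕ → ℂ → ℂ := fun M z => ∑ n ∈ Finset.range M, T a N h g n z with hF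
  have hsm : ∀ z, Summable fun n => ‖T a N h g n z‖ := fun z =>
    Summable.of_nonneg_of_le (fun n => norm_nonneg _) (fun n => hbd n z) (D.sm.mul_right _)
  have hfb : ∀ z, ‖f z‖ ≤ W * (N ^ 2 * Real.exp ((2 * N + 1) * rho z)) := by
    intro z
    refine (norm_tsum_le_tsum_norm (hsm z)).trans ?_
    rw [hW, ← tsum_mul_right]
    exact (hsm z).tsum_le_tsum (fun n => hbd n z) (D.sm.mul_right _)
  have hFb : ∀ M z, ‖F M z‖ ≤ W * (N ^ 2 * Real.exp ((2 * N + 1) * rho z)) := by
    intro M z
    refine (norm_sum_le _ _).trans ?_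
    calc ∑ n ∈ Finset.range M, ‖T a N h g n z‖
        ≤ ∑ n ∈ Finset.range M, w n * (N ^ 2 * Real.exp ((2 * N + 1) * rho z)) :=
          Finset.sum_le_sum fun n _ => hbd n z
      _ = (∑ n ∈ Finset.range M, w n) * (N ^ 2 * Real.exp ((2 * N + 1) * rho z)) := by
          rw [Finset.sum_mul]
      _ ≤ _ := by
          apply mul_le_mul_of_nonneg_right _ (by positivity)
          exact D.sm.sum_le_tsum _ fun n _ => hw0 n
  have hdF : ∀ M, Differentiable ℂ (F M) := by
    intro M
    have : F M = fun z => ∑ n ∈ Finset.range M, T a N h g n z := rfl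
    rw [this]
    exact Differentiable.fun_sum fun n _ => diff_T D n
  have ht : TendstoLocallyUniformlyOn F f atTop univ := by
    apply tlu hdF
    · intro x
      refine ⟨W * (N ^ 2 * Real.exp ((2 * N + 1) * (rho x + 4))), by positivity, fun M z hz => ?_⟩
      refine (hFb M z).trans ?_
      apply mul_le_mul_of_nonneg_left _ hW0
      apply mul_le_mul_of_nonneg_left _ (by positivity)
      apply Real.exp_le_exp.2
      apply mul_le_mul_of_nonneg_left _ (by positivity)
      have h1 := rho_le z x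
      rw [mem_ball, dist_eq_norm] at hz
      linarith
    · intro z
      exact ((hsm z).of_norm.hasSum).tendsto_sum_nat
  have hder : ∀ k m, Tendsto (fun M => ∑ n ∈ Finset.range M, iteratedDeriv k (T a N h g n) (a m))
      atTop (𝓝 (iteratedDeriv k f (a m))) := by
    intro k m
    have h1 := (tlu_iter hdF ht k).tendsto_at (mem_univ (a m))
    refine h1.congr fun M => ?_
    show iteratedDeriv k (fun z => ∑ n ∈ Finset.range M, T a N h g n z) (a m) = _
    exact iteratedDeriv_fun_sum fun n _ => (diff_T D n).contDiff.contDiffAt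
  refine ⟨f, diff_of_tlu hdF ht, ⟨W * N ^ 2 + 1, by positivity, 2 * N + 1, by positivity,
    fun z => ?_⟩, ?_, ?_⟩
  · refine (hfb z).trans ?_
    have := Real.exp_pos ((2 * N + 1) * rho z)
    nlinarith
  · intro m k hk
    refine tendsto_nhds_unique (hder k m) ?_
    have : (fun M => ∑ n ∈ Finset.range M, iteratedDeriv k (T a N h g n) (a m)) = fun _ => 0 := by
      funext M
      apply Finset.sum_eq_zero
      intro n _
      by_cases hnm : m = n
      · subst hnm; exact T_on_lt D m hk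
      · exact T_off D hnm hk.le
    rw [this]
    exact tendsto_const_nhds
  · intro m
    refine tendsto_nhds_unique (hder (p m) m) ?_
    apply tendsto_const_nhds.congr'
    filter_upwards [eventually_gt_atTop m] with M hM
    rw [Finset.sum_eq_single m, T_on_eq D m]
    · intro n _ hnm
      exact T_off D (Ne.symm hnm) le_rfl
    · intro h1
      exact absurd (Finset.mem_range.2 hM) h1

end data

theorem main {a : ℕ → ℂ} {p : ℕ → ℕ} (hp : ∀ n, 1 ≤ p n) (hU : Univ a p) :
    ∃ f : ℂ → ℂ, (Differentiable ℂ f ∧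
      ∃ A > (0:ℝ), ∃ B > (0:ℝ), ∀ z : ℂ, ‖f z‖ ≤ A * Real.exp (B * rho z)) ∧ (∃ z, f z ≠ 0) ∧
      (∀ n, ∀ k < p n, iteratedDeriv k f (a n) = 0) ∧
      ∃ ε > (0:ℝ), ∃ c > (0:ℝ), ∀ n,
        ε * Real.exp (-(c * rho (a n))) ≤
          ‖iteratedDeriv (p n) f (a n)‖ / ((p n).factorial : ℝ) := by
  obtain ⟨N, hN, hB⟩ := baire hU
  have hsm := summable_exp hN (fun n m hnm => separation hp hN hB hnm)
  choose G hG1 hG2 hG3 using hB
  obtain ⟨f, h1, h2, h3, h4⟩ := exists_f (a := a) (p := p) (N := N)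
    (h := fun n => G (n, p n - 1)) (g := fun n => G (n, 0))
    ⟨hp, hN, fun n => hG1 _, fun n => hG1 _, fun n => hG2 _, fun n => hG2 _, fun n => hG3 _,
      fun n => hG3 _, hsm⟩
  have h5 : ∀ n, ‖iteratedDeriv (p n) f (a n)‖ / ((p n).factorial : ℝ) =
      Real.exp (-((2 * N + 5) * rho (a n))) := by
    intro n
    rw [h4, norm_mul, Complex.norm_real, Real.norm_of_nonneg (Real.exp_pos _).le,
      Complex.norm_natCast]
    have : ((p n).factorial : ℝ) ≠ 0 := by exact_mod_cast Nat.factorial_ne_zero _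
    field_simp
  refine ⟨f, ⟨h1, h2⟩, ?_, h3, 1, one_pos, 2 * N + 5, by positivity, fun n => ?_⟩
  · by_contra hcon
    push Not at hcon
    have e : f = fun _ => 0 := funext hcon
    have h6 := h5 0
    rw [e] at h6
    have h7 : iteratedDeriv (p 0) (fun _ : ℂ => (0:ℂ)) (a 0) = 0 := by
      simp
    rw [h7, norm_zero, zero_div] at h6
    exact absurd h6.symm (Real.exp_pos _).ne'
  · rw [h5, one_mul]

end Pool.Agent.TH218.UI
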