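import Pool.Agent.TH218.Lac2

set_option autoImplicit false

open MeasureTheory Set Filter Topology Metric
open scoped Real BigOperators

namespace Pool.Agent.TH218.Lac

variable {n : ℕ → ℕ} {q : ℝ}

/-- consequence of the Lebesgue density theorem -/
lemma porous {G : Set ℝ} (hG : MeasurableSet G) {η : ℝ} (hη : 0 < η) :
    ∀ᵐ x : ℝ, x ∈ G → ¬ ∃ᶠ r in 𝓝[>] (0:ℝ),
      ENNReal.ofReal (η * (2 * r)) ≤ volume (closedBall x r \ G) := by
  filter_upwards [Besicovitch.ae_tendsto_measure_inter_div_of_measurableSet volume hG] with x hx hxG hfr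
  rw [indicator_of_mem hxG] at hx
  simp only [Pi.one_apply] at hx
  have h1 : ENNReal.ofReal (1 - η) < 1 := by
    rw [ENNReal.ofReal_lt_one]; linarith
  have h2 := hx.eventually (lt_mem_nhds h1)
  have h3 : ∀ᶠ r : ℝ in 𝓝[>] (0:ℝ), 0 < r := eventually_mem_nhdsWithin
  obtain ⟨r, hr1, hr2, hr3⟩ := (hfr.and_eventually (h2.and h3)).exists
  have h4 := measure_inter_add_sdiff (μ := (volume : Measure ℝ)) (closedBall x r) hG
  rw [Real.volume_closedBall] at h4 hr2
  have h2r : (0:ℝ) < 2 * r := by linarith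
  rw [inter_comm] at h4
  have hV0 : ENNReal.ofReal (2 * r) ≠ 0 := by simpa using hr3
  have h5 : volume (G ∩ closedBall x r) + ENNReal.ofReal (η * (2 * r)) ≤ ENNReal.ofReal (2 * r) := by
    rw [← h4]
    exact add_le_add le_rfl hr1
  have h6 : volume (G ∩ closedBall x r) ≤ ENNReal.ofReal ((1 - η) * (2 * r)) := by
    have e : (1 - η) * (2 * r) = 2 * r - η * (2 * r) := by ring
    rw [e, ENNReal.ofReal_sub _ (by positivity)]
    exact ENNReal.le_sub_of_add_le_right ENNReal.ofReal_ne_top h5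
  rw [ENNReal.lt_div_iff_mul_lt (Or.inl hV0) (Or.inl ENNReal.ofReal_ne_top),
    ← ENNReal.ofReal_mul' h2r.le] at hr2
  exact absurd h6 (not_le.2 hr2)

/-- almost everywhere the partial sums are unbounded below (with either sign) -/
lemma ae_unbounded (h : Gap n q) (σ : ℝ) (hσ : σ = 1 ∨ σ = -1) (K : ℕ) (M : ℕ) :
    ∀ᵐ x : ℝ, ∃ m ≥ M, σ * S n m x < -(K:ℝ) := by
  set G : Set ℝ := {x | ∀ m ≥ M, -(K:ℝ) ≤ σ * S n m x} with hGdef
  have hGm : MeasurableSet G := by
    have : G = ⋂ m : ℕ, ⋂ (_ : M ≤ m), {x | -(K:ℝ) ≤ σ * S n m x} := by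
      ext x; simp [hGdef]
    rw [this]
    refine MeasurableSet.iInter fun m => MeasurableSet.iInter fun _ => ?_
    apply IsClosed.measurableSet
    exact isClosed_le continuous_const (continuous_const.mul (continuous_S m))
  have hE := E_ge h.hq
  have hE0 : 0 < E q := by linarith
  filter_upwards [porous hGm (η := 1 / (4 * E q ^ 2)) (by positivity)] with x hx
  by_contra hcon
  push Not at hcon
  refine hx hcon ?_
  apply Eventually.frequently
  have h3 : ∀ᶠ r : ℝ in 𝓝[>] (0:ℝ), 0 < r := eventually_mem_nhdsWithin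
  filter_upwards [h3] with r hr
  have h1 := density h (a := x - r) (b := x + r) (by linarith) hGm (K := K) (by positivity) σ hσ M
    (fun m hm y hy => hy m hm)
  have h2 : volume (Ioc (x - r) (x + r) \ G) ≤ volume (closedBall x r \ G) := by
    apply measure_mono
    apply sdiff_subset_sdiff_left
    rw [Real.closedBall_eq_Icc]
    exact Ioc_subset_Icc_self
  refine le_trans ?_ h2
  have hfin : volume (Ioc (x - r) (x + r) \ G) ≠ ⊤ := by
    apply ne_top_of_le_ne_top _ (measure_mono sdiff_subset)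
    rw [Real.volume_Ioc]
    exact ENNReal.ofReal_ne_top
  rw [← ENNReal.ofReal_toReal hfin]
  apply ENNReal.ofReal_le_ofReal
  refine le_trans (le_of_eq ?_) h1
  ring

/-- crossing of the level `ξ` -/
lemma exists_crossing {f : ℕ → ℝ} {ξ : ℝ} (h1 : ∀ M, ∃ m ≥ M, f m < ξ) (h2 : ∀ M, ∃ m ≥ M, ξ ≤ f m)
    (M : ℕ) : ∃ m ≥ M, f m < ξ ∧ ξ ≤ f (m+1) := by
  classical
  obtain ⟨m1, hm1, hf1⟩ := h1 M
  have hex := h2 m1
  obtain ⟨h3, h4⟩ := Nat.find_spec hex
  set m2 := Nat.find hex with hm2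
  have hne : m2 ≠ m1 := by
    intro he
    rw [he] at h4
    linarith
  have hlt : m1 < m2 := lt_of_le_of_ne h3 (Ne.symm hne)
  have hmin := Nat.find_min hex (m := m2 - 1) (by omega)
  refine ⟨m2 - 1, by omega, ?_, ?_⟩
  · push Not at hmin
    exact hmin (by omega)
  · rw [show m2 - 1 + 1 = m2 by omega]
    exact h4

lemma near_zero (h : Gap n q) {x ξ : ℝ} {m : ℕ} (h1 : S n m x < ξ) (h2 : ξ ≤ S n (m+1) x) :
    ∃ x0, x ≤ x0 ∧ x0 ≤ x + π / n m ∧ (S n m x0 = ξ ∨ S n (m+1) x0 = ξ) := by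
  have hn := h.npos m
  have hpi := Real.pi_pos
  have hle : x ≤ x + π / n m := by
    have : 0 < π / n m := by positivity
    linarith
  have hc : 0 < Real.cos ((n m : ℝ) * x) := by
    rw [S_succ] at h2; linarith
  have hc' : Real.cos ((n m : ℝ) * (x + π / n m)) < 0 := by
    have e : (n m : ℝ) * (x + π / n m) = (n m : ℝ) * x + π := by field_simp
    rw [e, Real.cos_add_pi]; linarith
  have hlt : S n (m+1) (x + π / n m) < S n m (x + π / n m) := by
    rw [S_succ]; linarith
  by_cases hcase : ξ ≤ S n m (x + π / n m)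
  · obtain ⟨x0, hx0, he⟩ := intermediate_value_Icc hle (continuous_S (n := n) m).continuousOn
      ⟨h1.le, hcase⟩
    exact ⟨x0, hx0.1, hx0.2, Or.inl he⟩
  · push Not at hcase
    obtain ⟨x0, hx0, he⟩ := intermediate_value_Icc' hle (continuous_S (n := n) (m+1)).continuousOn
      ⟨(hlt.trans hcase).le, h2⟩
    exact ⟨x0, hx0.1, hx0.2, Or.inr he⟩

lemma lip (h : Gap n q) {j m : ℕ} (hj : j ≤ m + 1) (x y : ℝ) :
    |S n j x - S n j y| ≤ q / (q - 1) * n m * |x - y| := by
  have hq1 : 0 < q - 1 := by linarith [h.hq]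
  unfold S
  rw [← Finset.sum_sub_distrib]
  calc |∑ k ∈ Finset.range j, (Real.cos ((n k : ℝ) * x) - Real.cos ((n k : ℝ) * y))|
      ≤ ∑ k ∈ Finset.range j, |Real.cos ((n k : ℝ) * x) - Real.cos ((n k : ℝ) * y)| :=
        Finset.abs_sum_le_sum_abs _ _
    _ ≤ ∑ k ∈ Finset.range j, (n k : ℝ) * |x - y| := by
        refine Finset.sum_le_sum fun k _ => ?_
        have h1 := Real.lipschitzWith_cos.dist_le_mul ((n k : ℝ) * x) ((n k : ℝ) * y)
        rw [Real.dist_eq, Real.dist_eq, ← mul_sub, abs_mul, abs_of_pos (h.npos k)] at h1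
        simpa using h1
    _ ≤ ∑ k ∈ Finset.range (m+1), (n k : ℝ) * |x - y| := by
        apply Finset.sum_le_sum_of_subset_of_nonneg
        · exact Finset.range_mono hj
        · intro k _ _
          have := h.npos k
          positivity
    _ = (∑ k ∈ Finset.range (m+1), (n k : ℝ)) * |x - y| := by rw [Finset.sum_mul]
    _ ≤ _ := by
        apply mul_le_mul_of_nonneg_right _ (abs_nonneg _)
        rw [Finset.sum_range_succ]
        have h1 := h.sum_le m
        have e : q / (q - 1) * n m = n m / (q - 1) + n m := by field_simp; ring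
        rw [e]
        linarith

lemma tendsto_scale (h : Gap n q) {c : ℝ} (hc : 0 < c) :
    Tendsto (fun m => c / (n m : ℝ)) atTop (𝓝[>] 0) := by
  rw [tendsto_nhdsWithin_iff]
  constructor
  · have h1 : Tendsto (fun m => (n m : ℝ)) atTop atTop :=
      tendsto_atTop_mono h.pow_le (tendsto_pow_atTop_atTop_of_one_lt h.hq)
    exact h1.const_div_atTop c
  · filter_upwards with m
    exact div_pos hc (h.npos m)

lemma ae_visit (h : Gap n q) (ξ : ℝ) {ε : ℝ} (hε : 0 < ε) (M : ℕ) :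
    ∀ᵐ x : ℝ, ∃ m ≥ M, |S n m x - ξ| < ε := by
  have hq1 : 0 < q - 1 := by linarith [h.hq]
  have hq0 : 0 < q := by linarith [h.hq]
  have hpi := Real.pi_pos
  set G : Set ℝ := {x | ∀ m ≥ M, ε ≤ |S n m x - ξ|} with hGdef
  have hGm : MeasurableSet G := by
    have : G = ⋂ m : ℕ, ⋂ (_ : M ≤ m), {x | ε ≤ |S n m x - ξ|} := by
      ext x; simp [hGdef]
    rw [this]
    refine MeasurableSet.iInter fun m => MeasurableSet.iInter fun _ => ?_
    apply IsClosed.measurableSet
    exact isClosed_le continuous_const ((continuous_S m).sub continuous_const).abs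
  set δ := ε * ((q - 1) / q) with hδ
  have hδ0 : 0 < δ := by positivity
  obtain ⟨K, hK⟩ := exists_nat_gt |ξ|
  have hu1 : ∀ᵐ x : ℝ, ∀ M, ∃ m ≥ M, (1:ℝ) * S n m x < -(K:ℝ) :=
    ae_all_iff.2 fun M => ae_unbounded h 1 (Or.inl rfl) K M
  have hu2 : ∀ᵐ x : ℝ, ∀ M, ∃ m ≥ M, (-1:ℝ) * S n m x < -(K:ℝ) :=
    ae_all_iff.2 fun M => ae_unbounded h (-1) (Or.inr rfl) K M
  filter_upwards [porous hGm (η := δ / (π + δ)) (by positivity), hu1, hu2] with x hx hx1 hx2
  by_contra hcon
  push Not at hcon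
  refine hx hcon ?_
  have hξ := abs_lt.1 hK
  have hcr := exists_crossing (f := fun m => S n m x) (ξ := ξ)
    (fun M => by
      obtain ⟨m, hm, h1⟩ := hx1 M
      exact ⟨m, hm, by linarith [hξ.1]⟩)
    (fun M => by
      obtain ⟨m, hm, h1⟩ := hx2 M
      exact ⟨m, hm, by linarith [hξ.2]⟩)
  have hfr : ∃ᶠ m in atTop, S n m x < ξ ∧ ξ ≤ S n (m+1) x := by
    rw [frequently_atTop]
    exact hcr
  have hfr2 : ∃ᶠ m in atTop, ENNReal.ofReal (δ / (π + δ) * (2 * ((π + δ) / n m))) ≤
      volume (closedBall x ((π + δ) / n m) \ G) := by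
    refine (hfr.and_eventually (eventually_ge_atTop M)).mono ?_
    rintro m ⟨⟨h1, h2⟩, hmM⟩
    have hn := h.npos m
    obtain ⟨x0, hx0, hx0', he⟩ := near_zero h h1 h2
    have hsub : ball x0 (δ / n m) ⊆ closedBall x ((π + δ) / n m) \ G := by
      intro y hy
      rw [mem_ball, Real.dist_eq] at hy
      refine ⟨?_, ?_⟩
      · rw [mem_closedBall, Real.dist_eq]
        have e : (π + δ) / n m = δ / n m + π / n m := by ring
        have h3 : |x0 - x| ≤ π / n m := by
          rw [abs_of_nonneg (by linarith)]; linarith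
        calc |y - x| = |(y - x0) + (x0 - x)| := by ring_nf
          _ ≤ |y - x0| + |x0 - x| := abs_add_le _ _
          _ ≤ _ := by rw [e]; linarith
      · intro hyG
        have hlt : q / (q - 1) * n m * |y - x0| < ε := by
          have h3 : q / (q - 1) * n m * |y - x0| < q / (q - 1) * n m * (δ / n m) :=
            mul_lt_mul_of_pos_left hy (by positivity)
          have e : q / (q - 1) * n m * (δ / n m) = ε := by
            rw [hδ]; field_simp
          linarith
        rcases he with he | he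
        · have h4 := hyG m hmM
          have h5 := lip h (by omega : m ≤ m + 1) y x0
          rw [he] at h5
          linarith
        · have h4 := hyG (m+1) (by omega)
          have h5 := lip h (le_refl (m + 1)) y x0
          rw [he] at h5
          linarith
    refine le_trans (le_of_eq ?_) (measure_mono hsub)
    rw [Real.volume_ball]
    congr 1
    field_simp
  exact (tendsto_scale h (by positivity : 0 < π + δ)).frequently hfr2

theorem main (h : Gap n q) : ∀ᵐ x : ℝ, ∀ ξ : ℝ, ∀ ε : ℝ, 0 < ε →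
    ∃ᶠ m in atTop, |S n m x - ξ| < ε := by
  have h1 : ∀ᵐ x : ℝ, ∀ ξ : ℚ, ∀ e : ℕ, ∀ M : ℕ, ∃ m ≥ M, |S n m x - ξ| < 1 / ((e:ℝ) + 1) :=
    ae_all_iff.2 fun ξ => ae_all_iff.2 fun e => ae_all_iff.2 fun M =>
      ae_visit h ξ (by positivity) M
  filter_upwards [h1] with x hx ξ ε hε
  obtain ⟨ξ', hξ'⟩ := exists_rat_near ξ (half_pos hε)
  obtain ⟨e, he⟩ := exists_nat_one_div_lt (half_pos hε)
  rw [frequently_atTop]
  intro M
  obtain ⟨m, hm, h2⟩ := hx ξ' e M
  refine ⟨m, hm, ?_⟩
  rw [abs_lt] at *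
  constructor <;> linarith [hξ'.1, hξ'.2, h2.1, h2.2]

theorem measure_eq (h : Gap n q) :
    volume {x : ℝ | x ∈ Ico 0 (2 * π) ∧ ∀ ξ : ℝ, ∀ ε : ℝ, 0 < ε →
      ∃ᶠ m in atTop, |(∑ k ∈ Finset.range m, Real.cos ((n k : ℝ) * x)) - ξ| < ε}
      = ENNReal.ofReal (2 * π) := by
  have h1 : ({x : ℝ | x ∈ Ico 0 (2 * π) ∧ ∀ ξ : ℝ, ∀ ε : ℝ, 0 < ε →
      ∃ᶠ m in atTop, |(∑ k ∈ Finset.range m, Real.cos ((n k : ℝ) * x)) - ξ| < ε} : Set ℝ)
      =ᵐ[volume] (Ico 0 (2 * π) : Set ℝ) := by
    filter_upwards [main h] with x hx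
    apply propext
    constructor
    · intro h2
      exact h2.1
    · intro h2
      exact ⟨h2, hx⟩
  rw [measure_congr h1, Real.volume_Ico, sub_zero]

end Pool.Agent.TH218.Lac
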