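import Mathlib

set_option autoImplicit false

open MeasureTheory Set Filter Topology
open scoped Real BigOperators

namespace Pool.Agent.TH218.Lac

/-- partial sums of the lacunary cosine series -/
noncomputable def S (n : ℕ → ℕ) (m : ℕ) (x : ℝ) : ℝ :=
  ∑ k ∈ Finset.range m, Real.cos ((n k : ℝ) * x)

/-- Hadamard gap condition -/
structure Gap (n : ℕ → ℕ) (q : ℝ) : Prop where
  hq : 1 < q
  pos : ∀ k, 0 < n k
  gap : ∀ k, q * (n k : ℝ) ≤ (n (k+1) : ℝ)

variable {n : ℕ → ℕ} {q : ℝ}

lemma S_succ (m : ℕ) (x : ℝ) : S n (m+1) x = S n m x + Real.cos ((n m : ℝ) * x) := by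
  unfold S; rw [Finset.sum_range_succ]

lemma S_zero (x : ℝ) : S n 0 x = 0 := by simp [S]

lemma continuous_S (m : ℕ) : Continuous (S n m) := by
  unfold S
  fun_prop

lemma abs_S_le (m : ℕ) (x : ℝ) : |S n m x| ≤ m := by
  unfold S
  calc |∑ k ∈ Finset.range m, Real.cos ((n k : ℝ) * x)|
      ≤ ∑ k ∈ Finset.range m, |Real.cos ((n k : ℝ) * x)| := Finset.abs_sum_le_sum_abs _ _
    _ ≤ ∑ k ∈ Finset.range m, 1 := Finset.sum_le_sum fun k _ => Real.abs_cos_le_one _
    _ = m := by simp

/-- derivative of the partial sum -/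
noncomputable def S' (n : ℕ → ℕ) (m : ℕ) (x : ℝ) : ℝ :=
  ∑ k ∈ Finset.range m, -((n k : ℝ) * Real.sin ((n k : ℝ) * x))

lemma hasDerivAt_S (m : ℕ) (x : ℝ) : HasDerivAt (S n m) (S' n m x) x := by
  unfold S S'
  apply HasDerivAt.fun_sum
  intro k _
  have h := ((hasDerivAt_id x).const_mul (n k : ℝ)).cos
  simp only [mul_one, id] at h
  exact h.congr_deriv (by ring)

lemma continuous_S' (m : ℕ) : Continuous (S' n m) := by
  unfold S'
  fun_prop

namespace Gap

variable (h : Gap n q)
include h

lemma npos (k : ℕ) : (0 : ℝ) < n k := by exact_mod_cast h.pos k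

lemma mono_succ (k : ℕ) : (n k : ℝ) ≤ n (k+1) := by
  have := h.gap k
  have h1 := h.npos k
  nlinarith [h.hq]

lemma mono {j k : ℕ} (hjk : j ≤ k) : (n j : ℝ) ≤ n k := by
  induction k, hjk using Nat.le_induction with
  | base => exact le_rfl
  | succ k _ ih => exact ih.trans (h.mono_succ k)

lemma pow_le (k : ℕ) : q ^ k ≤ n k := by
  induction k with
  | zero =>
    have := h.pos 0
    simp only [pow_zero]
    exact_mod_cast this
  | succ k ih =>
    calc q ^ (k+1) = q * q ^ k := by ring
      _ ≤ q * n k := mul_le_mul_of_nonneg_left ih (by linarith [h.hq])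
      _ ≤ _ := h.gap k

lemma sum_le (m : ℕ) : (∑ k ∈ Finset.range m, (n k : ℝ)) ≤ n m / (q - 1) := by
  have hq1 : 0 < q - 1 := by linarith [h.hq]
  induction m with
  | zero => simp only [Finset.range_zero, Finset.sum_empty]; have := h.npos 0; positivity
  | succ m ih =>
    rw [Finset.sum_range_succ]
    rw [le_div_iff₀ hq1] at ih ⊢
    have := h.gap m
    nlinarith

lemma mul_le {j m : ℕ} (hjm : j < m) : q * (n j : ℝ) ≤ n m :=
  (h.gap j).trans (h.mono hjm)

lemma inv_le (k : ℕ) : 1 / (n k : ℝ) ≤ (1/q) ^ k := by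
  rw [one_div_pow]
  exact one_div_le_one_div_of_le (pow_pos (by linarith [h.hq]) k) (h.pow_le k)

lemma abs_S'_le (m : ℕ) (x : ℝ) : |S' n m x| ≤ n m / (q - 1) := by
  unfold S'
  calc |∑ k ∈ Finset.range m, -((n k : ℝ) * Real.sin ((n k : ℝ) * x))|
      ≤ ∑ k ∈ Finset.range m, |-((n k : ℝ) * Real.sin ((n k : ℝ) * x))| :=
        Finset.abs_sum_le_sum_abs _ _
    _ ≤ ∑ k ∈ Finset.range m, (n k : ℝ) := by
        refine Finset.sum_le_sum fun k _ => ?_
        rw [abs_neg, abs_mul, abs_of_pos (h.npos k)]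
        have := Real.abs_sin_le_one ((n k : ℝ) * x)
        nlinarith [h.npos k]
    _ ≤ _ := h.sum_le m

end Gap

/-! ### integrals -/

lemma abs_int_cos_le {c : ℝ} (hc : 0 < c) (a b : ℝ) : |∫ x in a..b, Real.cos (c * x)| ≤ 2 / c := by
  rw [intervalIntegral.integral_comp_mul_left (fun x => Real.cos x) hc.ne', integral_cos,
    smul_eq_mul, abs_mul, abs_of_pos (inv_pos.2 hc)]
  have h1 := Real.abs_sin_le_one (c * b)
  have h2 := Real.abs_sin_le_one (c * a)
  have h3 : |Real.sin (c * b) - Real.sin (c * a)| ≤ 2 := by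
    rw [abs_le] at *
    constructor <;> linarith
  rw [div_eq_inv_mul]
  exact mul_le_mul_of_nonneg_left h3 (inv_pos.2 hc).le

lemma cos_mul_cos' (a b : ℝ) : Real.cos a * Real.cos b =
    (Real.cos (b - a) + Real.cos (b + a)) / 2 := by
  rw [Real.cos_sub, Real.cos_add]; ring

/-- near orthogonality of two cosines -/
lemma abs_int_cos_mul_cos_le {c d : ℝ} (hc : 0 < c) (hcd : c < d) (a b : ℝ) :
    |∫ x in a..b, Real.cos (c * x) * Real.cos (d * x)| ≤ 2 / (d - c) := by
  have h1 := abs_int_cos_le (sub_pos.2 hcd) a b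
  have h2 := abs_int_cos_le (add_pos (hc.trans hcd) hc) a b
  have e : (∫ x in a..b, Real.cos (c * x) * Real.cos (d * x)) =
      ((∫ x in a..b, Real.cos ((d - c) * x)) + ∫ x in a..b, Real.cos ((d + c) * x)) / 2 := by
    rw [← intervalIntegral.integral_add (by apply Continuous.intervalIntegrable; fun_prop)
      (by apply Continuous.intervalIntegrable; fun_prop), ← intervalIntegral.integral_div]
    congr 1
    ext x
    rw [cos_mul_cos', sub_mul, add_mul]
  have h3 : 2 / (d + c) ≤ 2 / (d - c) :=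
    div_le_div_of_nonneg_left (by norm_num) (by linarith) (by linarith)
  rw [e, abs_le]
  rw [abs_le] at h1 h2
  constructor <;> linarith

lemma abs_int_cos_sq_sub_le {c : ℝ} (hc : 0 < c) (a b : ℝ) :
    |(∫ x in a..b, Real.cos (c * x) ^ 2) - (b - a) / 2| ≤ 1 / c := by
  have h1 := abs_int_cos_le (by positivity : 0 < 2 * c) a b
  have e : (∫ x in a..b, Real.cos (c * x) ^ 2) =
      (b - a) / 2 + (∫ x in a..b, Real.cos (2 * c * x)) / 2 := by
    have : ∀ x, Real.cos (c * x) ^ 2 = 1 / 2 + Real.cos (2 * c * x) / 2 := by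
      intro x
      rw [Real.cos_sq, mul_assoc]
    simp_rw [this]
    rw [intervalIntegral.integral_add (by simp)
      (by apply Continuous.intervalIntegrable; fun_prop), intervalIntegral.integral_div,
      intervalIntegral.integral_const, smul_eq_mul, intervalIntegral.integral_div]
    ring
  rw [e]
  have h3 : (2 : ℝ) / (2 * c) = 1 / c := by field_simp
  rw [h3] at h1
  have : 0 < 1 / c := by positivity
  rw [abs_le] at *
  constructor <;> linarith

variable (n) in
/-- second moment -/
noncomputable def B (a b : ℝ) (m : ℕ) : ℝ := ∫ x in a..b, (S n m x) ^ 2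

variable (n) in
/-- fourth moment -/
noncomputable def A (a b : ℝ) (m : ℕ) : ℝ := ∫ x in a..b, (S n m x) ^ 4

lemma B_nonneg {a b : ℝ} (hab : a ≤ b) (m : ℕ) : 0 ≤ B n a b m := by
  unfold B
  exact intervalIntegral.integral_nonneg hab fun x _ => by positivity

lemma int_S_le (h : Gap n q) (a b : ℝ) (m : ℕ) :
    |∫ x in a..b, S n m x| ≤ ∑ k ∈ Finset.range m, 2 * (1/q)^k := by
  induction m with
  | zero => simp [S]
  | succ m ih =>
    have e : (∫ x in a..b, S n (m+1) x) =
        (∫ x in a..b, S n m x) + ∫ x in a..b, Real.cos ((n m : ℝ) * x) := by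
      simp_rw [S_succ]
      rw [intervalIntegral.integral_add ((continuous_S m).intervalIntegrable _ _)
        (by apply Continuous.intervalIntegrable; fun_prop)]
    rw [e, Finset.sum_range_succ]
    refine (abs_add_le _ _).trans (add_le_add ih ?_)
    refine (abs_int_cos_le (h.npos m) a b).trans ?_
    have := h.inv_le m
    calc 2 / (n m : ℝ) = 2 * (1 / (n m : ℝ)) := by ring
      _ ≤ _ := by linarith

/-- cross term -/
lemma int_S_mul_cos_le (h : Gap n q) (a b : ℝ) (m : ℕ) :
    |∫ x in a..b, S n m x * Real.cos ((n m : ℝ) * x)| ≤ m * (2 * q / (q - 1)) * (1/q)^m := by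
  have hq1 : 0 < q - 1 := by linarith [h.hq]
  have hq0 : 0 < q := by linarith [h.hq]
  have e : (∫ x in a..b, S n m x * Real.cos ((n m : ℝ) * x)) =
      ∑ k ∈ Finset.range m, ∫ x in a..b, Real.cos ((n k : ℝ) * x) * Real.cos ((n m : ℝ) * x) := by
    unfold S
    simp_rw [Finset.sum_mul]
    rw [intervalIntegral.integral_finsetSum]
    intro k _
    apply Continuous.intervalIntegrable; fun_prop
  rw [e]
  have h1 : ∀ k ∈ Finset.range m,
      |∫ x in a..b, Real.cos ((n k : ℝ) * x) * Real.cos ((n m : ℝ) * x)| ≤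
        (2 * q / (q - 1)) * (1/q)^m := by
    intro k hk
    have hk' := h.mul_le (Finset.mem_range.1 hk)
    have hn := h.npos k
    have hnm := h.npos m
    have hlt : (n k : ℝ) < n m := by nlinarith [h.hq]
    refine (abs_int_cos_mul_cos_le hn hlt a b).trans ?_
    have h2 : (n m : ℝ) * ((q - 1) / q) ≤ n m - n k := by
      have : (n k : ℝ) ≤ n m / q := by rw [le_div_iff₀ hq0]; linarith
      have e2 : (n m : ℝ) * ((q - 1) / q) = n m - n m / q := by field_simp
      linarith
    calc 2 / ((n m : ℝ) - n k) ≤ 2 / ((n m : ℝ) * ((q - 1) / q)) :=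
          div_le_div_of_nonneg_left (by norm_num) (by positivity) h2
      _ = (2 * q / (q - 1)) * (1 / (n m : ℝ)) := by field_simp
      _ ≤ _ := mul_le_mul_of_nonneg_left (h.inv_le m) (by positivity)
  calc |∑ k ∈ Finset.range m, ∫ x in a..b, Real.cos ((n k : ℝ) * x) * Real.cos ((n m : ℝ) * x)|
      ≤ ∑ k ∈ Finset.range m,
        |∫ x in a..b, Real.cos ((n k : ℝ) * x) * Real.cos ((n m : ℝ) * x)| :=
        Finset.abs_sum_le_sum_abs _ _
    _ ≤ ∑ k ∈ Finset.range m, (2 * q / (q - 1)) * (1/q)^m := Finset.sum_le_sum h1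
    _ = _ := by simp; ring

lemma B_step (h : Gap n q) (a b : ℝ) (m : ℕ) :
    |B n a b (m+1) - B n a b m - (b - a) / 2| ≤ (m * (4 * q / (q - 1)) + 1) * (1/q)^m := by
  have e : B n a b (m+1) = B n a b m + 2 * (∫ x in a..b, S n m x * Real.cos ((n m : ℝ) * x))
      + ∫ x in a..b, Real.cos ((n m : ℝ) * x) ^ 2 := by
    unfold B
    rw [← intervalIntegral.integral_const_mul,
      ← intervalIntegral.integral_add, ← intervalIntegral.integral_add]
    · congr 1
      ext x
      rw [S_succ]; ring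
    · apply Continuous.intervalIntegrable
      have := continuous_S (n := n) m
      fun_prop
    · apply Continuous.intervalIntegrable; fun_prop
    · apply Continuous.intervalIntegrable
      have := continuous_S (n := n) m
      fun_prop
    · apply Continuous.intervalIntegrable
      have := continuous_S (n := n) m
      fun_prop
  have h1 := int_S_mul_cos_le h a b m
  have h2 := abs_int_cos_sq_sub_le (h.npos m) a b
  have h3 := h.inv_le m
  rw [e]
  have e2 : (m * (4 * q / (q - 1)) + 1) * (1/q)^m =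
      2 * (m * (2 * q / (q - 1)) * (1/q)^m) + (1/q)^m := by ring
  rw [e2]
  rw [abs_le] at *
  constructor <;> linarith


lemma A_cross (h : Gap n q) {a b : ℝ} (hab : a ≤ b) (m : ℕ) :
    |∫ x in a..b, S n m x ^ 3 * Real.cos ((n m : ℝ) * x)| ≤
      2 * (m : ℝ)^3 * (1/q)^m + 3 / (q - 1) * B n a b m := by
  have hq1 : 0 < q - 1 := by linarith [h.hq]
  have hn := h.npos m
  have hv : ∀ x ∈ uIcc a b, HasDerivAt (fun x => Real.sin ((n m : ℝ) * x) / n m)
      (Real.cos ((n m : ℝ) * x)) x := by
    intro x _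
    have h1 := (((hasDerivAt_id x).const_mul (n m : ℝ)).sin).div_const (n m : ℝ)
    simp only [mul_one, id] at h1
    exact h1.congr_deriv (by field_simp)
  have hu : ∀ x ∈ uIcc a b, HasDerivAt (fun x => S n m x ^ 3)
      (3 * S n m x ^ 2 * S' n m x) x := by
    intro x _
    have h1 := (hasDerivAt_S (n := n) m x).fun_pow 3
    exact h1.congr_deriv (by norm_num)
  have hcS := continuous_S (n := n) m
  have hcS' := continuous_S' (n := n) m
  rw [intervalIntegral.integral_mul_deriv_eq_deriv_mul hu hv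
    (by apply Continuous.intervalIntegrable; fun_prop)
    (by apply Continuous.intervalIntegrable; fun_prop)]
  have hb : ∀ x, |S n m x ^ 3 * (Real.sin ((n m : ℝ) * x) / n m)| ≤ (m : ℝ)^3 * (1/q)^m := by
    intro x
    rw [abs_mul, abs_pow, abs_div, abs_of_pos hn]
    have h1 := pow_le_pow_left₀ (abs_nonneg _) (abs_S_le (n := n) m x) 3
    have h2 : |Real.sin ((n m : ℝ) * x)| / n m ≤ (1/q)^m :=
      (div_le_div_of_nonneg_right (Real.abs_sin_le_one _) hn.le).trans (h.inv_le m)
    exact mul_le_mul h1 h2 (by positivity) (by positivity)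
  have hi : |∫ x in a..b, 3 * S n m x ^ 2 * S' n m x * (Real.sin ((n m : ℝ) * x) / n m)| ≤
      3 / (q - 1) * B n a b m := by
    have h1 : |∫ x in a..b, 3 * S n m x ^ 2 * S' n m x * (Real.sin ((n m : ℝ) * x) / n m)| ≤
        ∫ x in a..b, |3 * S n m x ^ 2 * S' n m x * (Real.sin ((n m : ℝ) * x) / n m)| :=
      intervalIntegral.abs_integral_le_integral_abs hab
    refine h1.trans ?_
    unfold B
    rw [← intervalIntegral.integral_const_mul]
    apply intervalIntegral.integral_mono_on hab
      (by apply Continuous.intervalIntegrable; fun_prop)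
      (by apply Continuous.intervalIntegrable; fun_prop)
    intro x _
    rw [abs_mul, abs_mul, abs_mul, abs_pow, abs_div, abs_of_pos hn, sq_abs,
      abs_of_pos (by norm_num : (0:ℝ) < 3)]
    have h2 := h.abs_S'_le m x
    have h3 := Real.abs_sin_le_one ((n m : ℝ) * x)
    have h4 : |S' n m x| * (|Real.sin ((n m : ℝ) * x)| / n m) ≤ 1 / (q - 1) := by
      calc |S' n m x| * (|Real.sin ((n m : ℝ) * x)| / n m) ≤ (n m / (q-1)) * (1 / n m) :=
            mul_le_mul h2 (div_le_div_of_nonneg_right h3 hn.le) (by positivity) (by positivity)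
        _ = _ := by field_simp
    calc 3 * S n m x ^ 2 * |S' n m x| * (|Real.sin ((n m : ℝ) * x)| / n m)
        = 3 * S n m x ^ 2 * (|S' n m x| * (|Real.sin ((n m : ℝ) * x)| / n m)) := by ring
      _ ≤ 3 * S n m x ^ 2 * (1 / (q - 1)) := mul_le_mul_of_nonneg_left h4 (by positivity)
      _ = _ := by ring
  have hb1 := hb a
  have hb2 := hb b
  rw [abs_le] at *
  constructor <;> linarith

lemma A_step (h : Gap n q) {a b : ℝ} (hab : a ≤ b) (m : ℕ) :
    A n a b (m+1) ≤ A n a b m + 8 * (m : ℝ)^3 * (1/q)^m + (12 / (q - 1) + 8) * B n a b m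
      + 3 * (b - a) := by
  have hcS := continuous_S (n := n) m
  have e : A n a b (m+1) = A n a b m + 4 * (∫ x in a..b, S n m x ^ 3 * Real.cos ((n m : ℝ) * x))
      + ∫ x in a..b, (6 * S n m x ^ 2 * Real.cos ((n m : ℝ) * x) ^ 2
        + 4 * S n m x * Real.cos ((n m : ℝ) * x) ^ 3 + Real.cos ((n m : ℝ) * x) ^ 4) := by
    unfold A
    rw [← intervalIntegral.integral_const_mul,
      ← intervalIntegral.integral_add, ← intervalIntegral.integral_add]
    · congr 1
      ext x
      rw [S_succ]; ring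
    all_goals (apply Continuous.intervalIntegrable; fun_prop)
  have h1 := A_cross h hab m
  have h2 : (∫ x in a..b, (6 * S n m x ^ 2 * Real.cos ((n m : ℝ) * x) ^ 2
        + 4 * S n m x * Real.cos ((n m : ℝ) * x) ^ 3 + Real.cos ((n m : ℝ) * x) ^ 4))
        ≤ 8 * B n a b m + 3 * (b - a) := by
    have e2 : 8 * B n a b m + 3 * (b - a) = ∫ x in a..b, (8 * S n m x ^ 2 + 3) := by
      unfold B
      rw [intervalIntegral.integral_add (by apply Continuous.intervalIntegrable; fun_prop) (by simp),
        intervalIntegral.integral_const_mul, intervalIntegral.integral_const, smul_eq_mul]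
      ring
    rw [e2]
    apply intervalIntegral.integral_mono_on hab
      (by apply Continuous.intervalIntegrable; fun_prop)
      (by apply Continuous.intervalIntegrable; fun_prop)
    intro x _
    have hc := Real.abs_cos_le_one ((n m : ℝ) * x)
    set c := Real.cos ((n m : ℝ) * x) with hcdef
    set s := S n m x with hs
    have hc2 : c ^ 2 ≤ 1 := by rw [← sq_abs]; nlinarith [abs_nonneg c]
    have hc4 : c ^ 4 ≤ 1 := by nlinarith [sq_nonneg (c^2), sq_nonneg c]
    have hc3 : |c ^ 3| ≤ 1 := by rw [abs_pow]; exact pow_le_one₀ (abs_nonneg _) hc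
    have h3 : 6 * s ^ 2 * c ^ 2 ≤ 6 * s ^ 2 := by nlinarith [sq_nonneg s]
    have h4 : 4 * s * c ^ 3 ≤ 2 * s^2 + 2 := by
      have h5 : c ^ 3 * c ^ 3 ≤ 1 := by
        have := abs_le.1 hc3
        nlinarith
      nlinarith [sq_nonneg (s - c ^ 3)]
    linarith
  rw [e]
  rw [abs_le] at h1
  have e3 : (12 / (q - 1) + 8) * B n a b m = 4 * (3 / (q - 1) * B n a b m) + 8 * B n a b m := by
    ring
  rw [e3]
  linarith [h1.2]

end Pool.Agent.TH218.Lac
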