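import Pool.Agent.TH218.Lac1

set_option autoImplicit false

open MeasureTheory Set Filter Topology
open scoped Real BigOperators

namespace Pool.Agent.TH218.Lac

variable {n : ℕ → ℕ} {q : ℝ}

lemma summable_poly (h : 1 < q) (k : ℕ) : Summable fun j : ℕ => (j : ℝ) ^ k * (1/q) ^ j := by
  apply summable_pow_mul_geometric_of_norm_lt_one
  have hq0 : 0 < q := by linarith
  rw [Real.norm_eq_abs, abs_of_pos (by positivity), div_lt_one hq0]
  exact h

lemma B_bound (h : Gap n q) (a b : ℝ) : ∃ C : ℝ, 0 ≤ C ∧ ∀ m : ℕ,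
    |B n a b m - m * ((b - a) / 2)| ≤ C := by
  have hq1 : 0 < q - 1 := by linarith [h.hq]
  have hq0 : 0 < q := by linarith [h.hq]
  set D := 4 * q / (q - 1) with hD
  have hD0 : 0 < D := by positivity
  have hs : Summable fun j : ℕ => (j * D + 1) * (1/q) ^ j := by
    have h1 := ((summable_poly h.hq 1).mul_left D).add (summable_poly h.hq 0)
    refine h1.congr fun j => ?_
    simp only [pow_one, pow_zero]; ring
  have hnn : ∀ j : ℕ, 0 ≤ (j * D + 1) * (1/q) ^ j := fun j => by positivity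
  refine ⟨∑' j : ℕ, (j * D + 1) * (1/q) ^ j, tsum_nonneg hnn, fun m => ?_⟩
  refine le_trans ?_ (hs.sum_le_tsum (Finset.range m) fun j _ => hnn j)
  induction m with
  | zero => simp [B, S]
  | succ m ih =>
    rw [Finset.sum_range_succ]
    have h1 := B_step h a b m
    have h2 : B n a b (m+1) - ((m+1 : ℕ) : ℝ) * ((b - a) / 2) =
      (B n a b m - m * ((b - a) / 2)) + (B n a b (m+1) - B n a b m - (b - a) / 2) := by
      push_cast; ring
    rw [h2]
    exact (abs_add_le _ _).trans (add_le_add ih h1)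

lemma A_bound (h : Gap n q) {a b : ℝ} (hab : a ≤ b) : ∃ C D : ℝ, 0 ≤ C ∧ 0 ≤ D ∧ ∀ m : ℕ,
    A n a b m ≤ (12 / (q - 1) + 8) * (b - a) / 4 * m ^ 2 + D * m + C := by
  have hq1 : 0 < q - 1 := by linarith [h.hq]
  have hq0 : 0 < q := by linarith [h.hq]
  obtain ⟨C1, hC1, hB⟩ := B_bound h a b
  set E := 12 / (q - 1) + 8 with hE
  have hE0 : 0 < E := by positivity
  have hs : Summable fun j : ℕ => 8 * (j : ℝ)^3 * (1/q) ^ j := by
    refine ((summable_poly h.hq 3).mul_left 8).congr fun j => by ring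
  have hnn : ∀ j : ℕ, 0 ≤ 8 * (j : ℝ)^3 * (1/q) ^ j := fun j => by positivity
  have hba : 0 ≤ b - a := by linarith
  refine ⟨∑' j : ℕ, 8 * (j : ℝ)^3 * (1/q) ^ j, E * C1 + 3 * (b - a), tsum_nonneg hnn,
    by positivity, fun m => ?_⟩
  have key : A n a b m ≤ E * (b - a) / 4 * m ^ 2 + (E * C1 + 3 * (b - a)) * m +
      ∑ j ∈ Finset.range m, 8 * (j : ℝ)^3 * (1/q) ^ j := by
    induction m with
    | zero => simp [A, S]
    | succ m ih =>
      rw [Finset.sum_range_succ]
      have h1 := A_step h hab m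
      have h2 := hB m
      rw [abs_le] at h2
      have h3 : E * B n a b m ≤ E * (m * ((b - a) / 2) + C1) :=
        mul_le_mul_of_nonneg_left (by linarith [h2.2]) hE0.le
      push_cast
      nlinarith [mul_nonneg hE0.le hba]
  have := hs.sum_le_tsum (Finset.range m) fun j _ => hnn j
  linarith

lemma int_S_bound (h : Gap n q) (a b : ℝ) : ∃ C : ℝ, 0 ≤ C ∧ ∀ m : ℕ,
    |∫ x in a..b, S n m x| ≤ C := by
  have hq0 : 0 < q := by linarith [h.hq]
  have hs : Summable fun j : ℕ => 2 * (1/q) ^ j := by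
    refine ((summable_poly h.hq 0).mul_left 2).congr fun j => by simp
  have hnn : ∀ j : ℕ, 0 ≤ 2 * (1/q) ^ j := fun j => by positivity
  exact ⟨_, tsum_nonneg hnn, fun m => (int_S_le h a b m).trans
    (hs.sum_le_tsum (Finset.range m) fun j _ => hnn j)⟩

/-! ### pointwise inequalities -/

lemma pt1 (s : ℝ) {u : ℝ} (hu : 0 < u) : s^2 / u - 2 * (s^4 / u^3) - s ≤ u := by
  have h1 : u - (s^2 / u - 2 * (s^4 / u^3) - s) =
      (2 * (s^2 - u^2/2)^2 + u^2 * ((s + u/2)^2 + u^2/4)) / u^3 := by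
    field_simp
    ring
  have h2 : 0 ≤ (2 * (s^2 - u^2/2)^2 + u^2 * ((s + u/2)^2 + u^2/4)) / u^3 := by positivity
  linarith

lemma pt2 {t : ℝ} (ht : 0 ≤ t) {u : ℝ} (hu : 0 < u) : t^2 / u - 2 * (t^4 / u^3) ≤ t := by
  have h1 : t - (t^2 / u - 2 * (t^4 / u^3)) = t * (u^3 - t * u^2 + 2 * t^3) / u^3 := by
    field_simp
    ring
  have h3 : 0 ≤ u^3 - t * u^2 + 2 * t^3 := by
    rcases le_total t u with htu | htu
    · have : 0 ≤ u^2 * (u - t) := by
        have : 0 ≤ u - t := by linarith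
        positivity
      have : 0 ≤ t ^ 3 := by positivity
      nlinarith
    · have h4 : t * u^2 ≤ t * t^2 := mul_le_mul_of_nonneg_left (by nlinarith) ht
      have h5 : 0 ≤ t^3 := by positivity
      have h6 : 0 < u^3 := by positivity
      nlinarith
  have h2 : 0 ≤ t * (u^3 - t * u^2 + 2 * t^3) / u^3 := by positivity
  linarith

lemma pt3 {s K : ℝ} (hK : 0 ≤ K) (hs : -K ≤ s) {u : ℝ} (hu : 0 < u) :
    s^2 / u - 2 * (s^4 / u^3) - s ≤ 2 * K := by
  rcases le_total 0 s with h | h
  · have := pt2 h hu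
    linarith
  · have := pt2 (neg_nonneg.2 h) hu
    have e1 : (-s)^2 = s^2 := by ring
    have e2 : (-s)^4 = s^4 := by ring
    rw [e1, e2] at this
    linarith

/-- the integrated inequality -/
lemma integrated {a b : ℝ} (hab : a ≤ b) {G : Set ℝ} (hG : MeasurableSet G) {K : ℝ}
    (hK : 0 ≤ K) (σ : ℝ) (hσ : σ = 1 ∨ σ = -1) (m : ℕ) (hm : ∀ x ∈ G, -K ≤ σ * S n m x)
    {u : ℝ} (hu : 0 < u) :
    B n a b m / u - 2 * (A n a b m / u^3) - σ * (∫ x in a..b, S n m x) ≤
      2 * K * (b - a) + u * (volume (Ioc a b \ G)).toReal := by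
  have hcS := continuous_S (n := n) m
  have hσ2 : σ^2 = 1 := by rcases hσ with h | h <;> rw [h] <;> norm_num
  have hσ4 : σ^4 = 1 := by rcases hσ with h | h <;> rw [h] <;> norm_num
  have e1 : B n a b m / u - 2 * (A n a b m / u^3) - σ * (∫ x in a..b, S n m x) =
      ∫ x in a..b, ((S n m x)^2 / u - 2 * ((S n m x)^4 / u^3) - σ * S n m x) := by
    unfold A B
    rw [← intervalIntegral.integral_div, ← intervalIntegral.integral_div,
      ← intervalIntegral.integral_const_mul, ← intervalIntegral.integral_const_mul,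
      ← intervalIntegral.integral_sub, ← intervalIntegral.integral_sub]
    all_goals (apply Continuous.intervalIntegrable; fun_prop)
  have hind : IntervalIntegrable (fun x => Gᶜ.indicator (fun _ => u) x) volume a b := by
    rw [intervalIntegrable_iff_integrableOn_Ioc_of_le hab]
    exact (integrable_const u).indicator hG.compl
  have e2 : 2 * K * (b - a) + u * (volume (Ioc a b \ G)).toReal =
      ∫ x in a..b, (2 * K + Gᶜ.indicator (fun _ => u) x) := by
    rw [intervalIntegral.integral_add (by simp) hind, intervalIntegral.integral_const, smul_eq_mul,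
      intervalIntegral.integral_of_le hab, integral_indicator hG.compl, Measure.restrict_restrict hG.compl,
      setIntegral_const, smul_eq_mul]
    rw [Measure.real, inter_comm, ← Set.sdiff_eq]
    ring
  rw [e1, e2]
  apply intervalIntegral.integral_mono_on hab
    (by apply Continuous.intervalIntegrable; fun_prop)
    ((by simp : IntervalIntegrable (fun _ => 2 * K) volume a b).add hind)
  intro x _
  have e3 : (S n m x)^2 / u - 2 * ((S n m x)^4 / u^3) - σ * S n m x =
      (σ * S n m x)^2 / u - 2 * ((σ * S n m x)^4 / u^3) - σ * S n m x := by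
    rw [mul_pow, mul_pow, hσ2, hσ4, one_mul, one_mul]
  rw [e3]
  by_cases hx : x ∈ G
  · rw [indicator_of_notMem (by simpa using hx)]
    have := pt3 hK (hm x hx) hu
    linarith
  · rw [indicator_of_mem (by simpa using hx)]
    have := pt1 (σ * S n m x) hu
    linarith

/-- the constant of the density estimate -/
noncomputable def E (q : ℝ) : ℝ := 12 / (q - 1) + 8

lemma E_ge (h : 1 < q) : 8 ≤ E q := by
  have hq1 : 0 < q - 1 := by linarith
  unfold E
  have : 0 < 12 / (q - 1) := by positivity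
  linarith

set_option maxHeartbeats 2000000 in
/-- A set on which all late partial sums are bounded below misses a definite part of every
interval. -/
lemma density (h : Gap n q) {a b : ℝ} (hab : a < b) {G : Set ℝ} (hG : MeasurableSet G) {K : ℝ}
    (hK : 0 ≤ K) (σ : ℝ) (hσ : σ = 1 ∨ σ = -1) (M : ℕ)
    (hm : ∀ m ≥ M, ∀ x ∈ G, -K ≤ σ * S n m x) :
    (b - a) / (4 * E q ^ 2) ≤ (volume (Ioc a b \ G)).toReal := by
  have hE := E_ge h.hq
  have hE0 : 0 < E q := by linarith
  set μ := (volume (Ioc a b \ G)).toReal with hμ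
  obtain ⟨C1, hC1, hB⟩ := B_bound h a b
  obtain ⟨C2, C3, hC2, hC3, hA⟩ := A_bound h hab.le
  obtain ⟨C4, hC4, hS⟩ := int_S_bound h a b
  by_contra hcon
  push Not at hcon
  have hba : 0 < b - a := by linarith
  set δ := (b - a) / (4 * E q) - E q * μ with hδ
  have hδ0 : 0 < δ := by
    rw [lt_div_iff₀ (by positivity)] at hcon
    rw [hδ, sub_pos, lt_div_iff₀ (by positivity)]
    nlinarith
  set C5 := C1 / E q + 2 * (C3 / E q ^ 3) + 2 * (C2 / E q ^ 3) + C4 + 2 * K * (b - a) with hC5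
  obtain ⟨j0, hj0⟩ := exists_nat_gt (C5 / δ)
  set j := max j0 (M + 1) with hj
  have hj1 : (1 : ℝ) ≤ j := by
    have : 1 ≤ j := le_trans (by omega) (le_max_right _ _)
    exact_mod_cast this
  have hjδ : C5 < δ * j := by
    have h1 : (j0 : ℝ) ≤ j := by exact_mod_cast le_max_left _ _
    rw [div_lt_iff₀ hδ0] at hj0
    nlinarith
  have hMj : M ≤ j ^ 2 := by
    have h1 : M + 1 ≤ j := le_max_right _ _
    nlinarith
  have hj0' : (0 : ℝ) < j := by linarith
  have key := integrated (n := n) hab.le hG hK σ hσ (j^2) (hm (j^2) hMj)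
    (u := E q * j) (by positivity)
  have hB' := (abs_le.1 (hB (j^2))).1
  have hA' := hA (j^2)
  have hS' := abs_le.1 (hS (j^2))
  push_cast at hB' hA'
  -- lower bound of the second moment term
  have t1 : j * ((b - a) / (2 * E q)) - C1 / E q ≤ B n a b (j^2) / (E q * j) := by
    rw [le_div_iff₀ (by positivity)]
    have e : (j * ((b - a) / (2 * E q)) - C1 / E q) * (E q * j) =
        (j:ℝ)^2 * ((b - a) / 2) - C1 * j := by
      field_simp
    rw [e]
    nlinarith
  have t2 : A n a b (j^2) / (E q * j)^3 ≤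
      j * ((b - a) / (4 * E q ^ 2)) + C3 / E q ^ 3 + C2 / E q ^ 3 := by
    rw [div_le_iff₀ (by positivity)]
    have e : (j * ((b - a) / (4 * E q ^ 2)) + C3 / E q ^ 3 + C2 / E q ^ 3) * (E q * j)^3 =
        E q * (b - a) / 4 * ((j:ℝ)^2)^2 + C3 * j^3 + C2 * j^3 := by
      field_simp
    rw [e]
    have h1 : C3 * (j:ℝ)^2 ≤ C3 * j^3 := by
      apply mul_le_mul_of_nonneg_left _ hC3
      nlinarith [sq_nonneg (j:ℝ)]
    have h2 : C2 ≤ C2 * (j:ℝ)^3 := by
      have : 1 ≤ (j:ℝ)^3 := one_le_pow₀ hj1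
      nlinarith
    have h3 : A n a b (j^2) ≤ E q * (b - a) / 4 * ((j:ℝ)^2)^2 + C3 * (j:ℝ)^2 + C2 := hA'
    linarith
  have t3 : σ * (∫ x in a..b, S n (j^2) x) ≤ C4 := by
    rcases hσ with h | h <;> rw [h] <;> linarith [hS'.1, hS'.2]
  -- the main terms
  have t4 : (b - a) / (4 * E q) ≤ (b - a) / (2 * E q) - 2 * ((b - a) / (4 * E q ^ 2)) := by
    have e : (b - a) / (2 * E q) - 2 * ((b - a) / (4 * E q ^ 2)) - (b - a) / (4 * E q) =
        (b - a) * (E q - 2) / (4 * E q ^ 2) := by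
      field_simp; ring
    have : 0 ≤ (b - a) * (E q - 2) / (4 * E q ^ 2) := by
      have : 0 ≤ E q - 2 := by linarith
      positivity
    linarith
  have t5 : (j:ℝ) * ((b - a) / (4 * E q)) ≤ j * ((b - a) / (2 * E q) - 2 * ((b - a) / (4 * E q ^ 2))) :=
    mul_le_mul_of_nonneg_left t4 hj0'.le
  have t6 : δ * j ≤ C5 := by
    have e1 : δ * j = j * ((b - a) / (4 * E q)) - E q * j * μ := by rw [hδ]; ring
    have e2 : (j:ℝ) * ((b - a) / (2 * E q) - 2 * ((b - a) / (4 * E q ^ 2))) =
      j * ((b - a) / (2 * E q)) - 2 * (j * ((b - a) / (4 * E q ^ 2))) := by ring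
    rw [e1, hC5]
    rw [e2] at t5
    linarith
  linarith

end Pool.Agent.TH218.Lac
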