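import Mathlib

set_option autoImplicit false

open Set Filter Topology Metric MeasureTheory

namespace Pool.Agent.TH218.UI

/-- the weight -/
noncomputable def rho (z : ℂ) : ℝ := |z.im| + Real.log (1 + ‖z‖ ^ 2)

lemma rho_nonneg (z : ℂ) : 0 ≤ rho z := by
  unfold rho
  have h1 : 0 ≤ Real.log (1 + ‖z‖ ^ 2) := Real.log_nonneg (by nlinarith [sq_nonneg ‖z‖])
  positivity

lemma log_le_rho (z : ℂ) : Real.log (1 + ‖z‖ ^ 2) ≤ rho z := by
  unfold rho; linarith [abs_nonneg z.im]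

lemma im_le_rho (z : ℂ) : |z.im| ≤ rho z := by
  unfold rho
  have h1 : 0 ≤ Real.log (1 + ‖z‖ ^ 2) := Real.log_nonneg (by nlinarith [sq_nonneg ‖z‖])
  linarith

lemma one_add_sq_le (z w : ℂ) :
    1 + ‖z‖ ^ 2 ≤ 2 * (1 + ‖w‖ ^ 2) * (1 + ‖z - w‖ ^ 2) := by
  have h1 : ‖z‖ ≤ ‖w‖ + ‖z - w‖ := by
    calc ‖z‖ = ‖w + (z - w)‖ := by ring_nf
      _ ≤ _ := norm_add_le _ _
  have h2 : 0 ≤ ‖z‖ := norm_nonneg z
  have h3 : 0 ≤ ‖w‖ := norm_nonneg w
  have h4 : 0 ≤ ‖z - w‖ := norm_nonneg _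
  have h5 : ‖z‖ ^ 2 ≤ (‖w‖ + ‖z - w‖) ^ 2 := pow_le_pow_left₀ h2 h1 2
  nlinarith [sq_nonneg (‖w‖ - ‖z - w‖), mul_nonneg (sq_nonneg ‖w‖) (sq_nonneg ‖z - w‖)]

lemma rho_le (z w : ℂ) : rho z ≤ rho w + 3 * ‖z - w‖ + 1 := by
  have h0 : 0 ≤ ‖z - w‖ := norm_nonneg _
  have h1 : |z.im| ≤ |w.im| + ‖z - w‖ := by
    have : |z.im - w.im| ≤ ‖z - w‖ := by
      rw [← Complex.sub_im]; exact Complex.abs_im_le_norm _
    calc |z.im| = |w.im + (z.im - w.im)| := by ring_nf
      _ ≤ |w.im| + |z.im - w.im| := abs_add_le _ _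
      _ ≤ _ := by linarith
  have h2 : Real.log (1 + ‖z‖ ^ 2) ≤ Real.log (1 + ‖w‖ ^ 2) + (1 + 2 * ‖z - w‖) := by
    rw [← Real.log_exp (1 + 2 * ‖z - w‖), ← Real.log_mul (by positivity) (by positivity)]
    apply Real.log_le_log (by positivity)
    have h3 : 2 * (1 + ‖z - w‖ ^ 2) ≤ Real.exp (1 + 2 * ‖z - w‖) := by
      have h4 : 1 + ‖z - w‖ ≤ Real.exp ‖z - w‖ := by
        linarith [Real.add_one_le_exp ‖z - w‖]
      have h5 : (2:ℝ) ≤ Real.exp 1 := by
        have := Real.add_one_le_exp (1:ℝ); linarith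
      rw [Real.exp_add, two_mul ‖z - w‖, Real.exp_add]
      have h6 : (1 + ‖z - w‖) * (1 + ‖z - w‖) ≤ Real.exp ‖z - w‖ * Real.exp ‖z - w‖ :=
        mul_le_mul h4 h4 (by positivity) (by positivity)
      have h7 : 1 + ‖z - w‖ ^ 2 ≤ Real.exp ‖z - w‖ * Real.exp ‖z - w‖ := by nlinarith
      exact mul_le_mul h5 h7 (by positivity) (by positivity)
    calc 1 + ‖z‖ ^ 2 ≤ 2 * (1 + ‖w‖ ^ 2) * (1 + ‖z - w‖ ^ 2) := one_add_sq_le z w
      _ = (1 + ‖w‖ ^ 2) * (2 * (1 + ‖z - w‖ ^ 2)) := by ring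
      _ ≤ _ := mul_le_mul_of_nonneg_left h3 (by positivity)
  unfold rho
  linarith

lemma continuous_rho : Continuous rho := by
  unfold rho
  have h1 : Continuous fun z : ℂ => Real.log (1 + ‖z‖ ^ 2) := by
    apply Continuous.log (by fun_prop)
    intro z
    positivity
  have h2 : Continuous fun z : ℂ => |z.im| := Complex.continuous_im.abs
  exact h2.add h1

/-! ### pointwise convergence of locally bounded families -/

variable {ι : Type*} {l : Filter ι} {F : ι → ℂ → ℂ} {f : ℂ → ℂ}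

theorem tlu [l.NeBot] (hd : ∀ i, Differentiable ℂ (F i))
    (hb : ∀ x : ℂ, ∃ M : ℝ, 0 ≤ M ∧ ∀ i, ∀ z ∈ ball x 1, ‖F i z‖ ≤ M)
    (hp : ∀ z, Tendsto (fun i => F i z) l (𝓝 (f z))) :
    TendstoLocallyUniformlyOn F f l univ := by
  rw [Metric.tendstoLocallyUniformlyOn_iff]
  intro ε hε x _
  obtain ⟨M, hM, hbM⟩ := hb x
  have hxx : x ∈ ball x 1 := mem_ball_self one_pos
  have key : ∀ i, ∀ z ∈ ball x 1, dist (F i z) (F i x) ≤ (2 * M + 1) / 1 * dist z x := by
    intro i z hz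
    apply Complex.dist_le_div_mul_dist_of_mapsTo_ball ((hd i).differentiableOn) _ hz
    intro w hw
    rw [mem_closedBall, dist_eq_norm]
    have h1 := hbM i w hw
    have h2 := hbM i x hxx
    have h3 := norm_sub_le (F i w) (F i x)
    linarith
  set L : ℝ := (2 * M + 1) / 1 with hL
  have hLp : 0 < L := by positivity
  have keyf : ∀ z ∈ ball x 1, dist (f z) (f x) ≤ L * dist z x := by
    intro z hz
    have h1 : Tendsto (fun i => dist (F i z) (F i x)) l (𝓝 (dist (f z) (f x))) :=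
      (hp z).dist (hp x)
    exact le_of_tendsto h1 (Eventually.of_forall fun i => key i z hz)
  refine ⟨ball x (min 1 (ε / (4 * L))), mem_nhdsWithin_of_mem_nhds
    (ball_mem_nhds _ (by positivity)), ?_⟩
  have hx' : ∀ᶠ i in l, dist (F i x) (f x) < ε / 4 :=
    (Metric.tendsto_nhds.1 (hp x)) _ (by positivity)
  filter_upwards [hx'] with i hi y hy
  have hy1 : y ∈ ball x 1 := ball_subset_ball (min_le_left _ _) hy
  have hy2 : dist y x < ε / (4 * L) := lt_of_lt_of_le hy (min_le_right _ _)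
  have hy3 : L * dist y x < ε / 4 := by
    calc L * dist y x < L * (ε / (4 * L)) := by gcongr
      _ = ε / 4 := by field_simp
  have h1 := key i y hy1
  have h2 := keyf y hy1
  calc dist (f y) (F i y) ≤ dist (f y) (f x) + dist (f x) (F i x) + dist (F i x) (F i y) :=
        dist_triangle4 _ _ _ _
    _ < ε := by
        rw [dist_comm (f x), dist_comm (F i x) (F i y)]
        linarith

lemma diff_iter {g : ℂ → ℂ} (hg : Differentiable ℂ g) (k : ℕ) :
    Differentiable ℂ (iteratedDeriv k g) :=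
  (hg.contDiff (n := (k+1 : ℕ))).differentiable_iteratedDeriv k (by exact_mod_cast Nat.lt_succ_self k)

theorem tlu_iter (hd : ∀ i, Differentiable ℂ (F i))
    (h : TendstoLocallyUniformlyOn F f l univ) (k : ℕ) :
    TendstoLocallyUniformlyOn (fun i => iteratedDeriv k (F i)) (iteratedDeriv k f) l univ := by
  induction k with
  | zero => simpa [iteratedDeriv_zero] using h
  | succ k ih =>
    have h1 := ih.deriv (Eventually.of_forall fun i => (diff_iter (hd i) k).differentiableOn)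
      isOpen_univ
    have e1 : (deriv ∘ fun i => iteratedDeriv k (F i)) = fun i => iteratedDeriv (k+1) (F i) := by
      funext i
      simp only [Function.comp_def]
      rw [iteratedDeriv_succ]
    rw [e1, ← iteratedDeriv_succ] at h1
    exact h1

lemma diff_of_tlu [l.NeBot] (hd : ∀ i, Differentiable ℂ (F i))
    (h : TendstoLocallyUniformlyOn F f l univ) : Differentiable ℂ f := by
  rw [← differentiableOn_univ]
  exact h.differentiableOn (Eventually.of_forall fun i => (hd i).differentiableOn) isOpen_univ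

/-- interpolation of the array `lam` on the sequence `a` with multiplicities `p` -/
def Interp (a : ℕ → ℂ) (p : ℕ → ℕ) (g : ℂ → ℂ) (lam : ℕ → ℕ → ℂ) : Prop :=
  ∀ n, ∀ κ < p n, iteratedDeriv κ g (a n) / (κ.factorial : ℂ) = lam n κ

/-- the bound with parameter `N` -/
def Bd (N : ℝ) (g : ℂ → ℂ) : Prop := ∀ z, ‖g z‖ ≤ N * Real.exp (N * rho z)

lemma loc_bound {N : ℝ} (hN : 0 ≤ N) (x : ℂ) : ∃ M : ℝ, 0 ≤ M ∧ ∀ z ∈ ball x 1,
    N * Real.exp (N * rho z) ≤ M := by
  refine ⟨N * Real.exp (N * (rho x + 4)), by positivity, fun z hz => ?_⟩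
  have h1 := rho_le z x
  rw [mem_ball, dist_eq_norm] at hz
  apply mul_le_mul_of_nonneg_left _ hN
  apply Real.exp_le_exp.2
  apply mul_le_mul_of_nonneg_left _ hN
  linarith

/-- the space of arrays with entries in the closed unit disc -/
abbrev X := ℕ × ℕ → closedBall (0 : ℂ) 1

/-- arrays that can be interpolated with the bound `N` -/
def XN (a : ℕ → ℂ) (p : ℕ → ℕ) (N : ℝ) : Set X :=
  {lam | ∃ g : ℂ → ℂ, Differentiable ℂ g ∧ Bd N g ∧ Interp a p g fun n κ => (lam (n, κ) : ℂ)}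

lemma isClosed_XN (a : ℕ → ℂ) (p : ℕ → ℕ) {N : ℝ} (hN : 0 ≤ N) : IsClosed (XN a p N) := by
  rw [isClosed_iff_ultrafilter]
  intro lam0 u hu hmem
  classical
  -- choose interpolating functions
  have hch : ∀ lam : X, ∃ g : ℂ → ℂ, Differentiable ℂ g ∧ Bd N g ∧
      (lam ∈ XN a p N → Interp a p g fun n κ => (lam (n, κ) : ℂ)) := by
    intro lam
    by_cases h : lam ∈ XN a p N
    · obtain ⟨g, h1, h2, h3⟩ := h
      exact ⟨g, h1, h2, fun _ => h3⟩
    · refine ⟨fun _ => 0, differentiable_const _, fun z => ?_, fun h' => absurd h' h⟩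
      simp only [norm_zero]
      positivity
  choose G hG1 hG2 hG3 using hch
  have hlim : ∀ z : ℂ, ∃ w : ℂ, Tendsto (fun lam => G lam z) u (𝓝 w) := by
    intro z
    have hc : IsCompact (closedBall (0:ℂ) (N * Real.exp (N * rho z))) := isCompact_closedBall _ _
    obtain ⟨w, _, hw⟩ := hc.ultrafilter_le_nhds (u.map fun lam => G lam z) (by
      rw [Ultrafilter.coe_map, le_principal_iff, mem_map]
      apply Filter.univ_mem'
      intro lam
      simp only [mem_preimage, mem_closedBall, dist_zero_right]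
      exact hG2 lam z)
    exact ⟨w, hw⟩
  choose g hg using hlim
  have ht : TendstoLocallyUniformlyOn G g (u : Filter X) univ := by
    apply tlu hG1 _ hg
    intro x
    obtain ⟨M, hM, h⟩ := loc_bound hN x
    exact ⟨M, hM, fun i z hz => (hG2 i z).trans (h z hz)⟩
  refine ⟨g, diff_of_tlu hG1 ht, ?_, ?_⟩
  · intro z
    exact le_of_tendsto (hg z).norm (Eventually.of_forall fun lam => hG2 lam z)
  · intro n κ hκ
    have h1 := ((tlu_iter hG1 ht κ).tendsto_at (mem_univ (a n))).div_const (κ.factorial : ℂ)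
    have h2 : Tendsto (fun lam : X => ((lam (n, κ) : closedBall (0:ℂ) 1) : ℂ)) (u : Filter X)
        (𝓝 (lam0 (n, κ) : ℂ)) := by
      have hc : Continuous fun lam : X => ((lam (n, κ) : closedBall (0:ℂ) 1) : ℂ) := by fun_prop
      exact (hc.tendsto lam0).mono_left hu
    refine tendsto_nhds_unique (h1.congr' ?_) h2
    filter_upwards [hmem] with lam hlam
    exact hG3 lam hlam n κ hκ

end Pool.Agent.TH218.UI
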