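import Pool.Agent.TH218.UI1

set_option autoImplicit false

open Set Filter Topology Metric MeasureTheory

namespace Pool.Agent.TH218.UI

lemma bd_mono {N N' : ℝ} (hN : 0 ≤ N) (h : N ≤ N') {g : ℂ → ℂ} (hg : Bd N g) : Bd N' g := by
  intro z
  refine (hg z).trans ?_
  have h1 : Real.exp (N * rho z) ≤ Real.exp (N' * rho z) :=
    Real.exp_le_exp.2 (mul_le_mul_of_nonneg_right h (rho_nonneg z))
  exact mul_le_mul h h1 (Real.exp_pos _).le (hN.trans h)

lemma bd_of {A B : ℝ} (hA : 0 < A) {g : ℂ → ℂ}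
    (hg : ∀ z, ‖g z‖ ≤ A * Real.exp (B * rho z)) : Bd (max A B) g := by
  intro z
  refine (hg z).trans ?_
  have h1 : Real.exp (B * rho z) ≤ Real.exp (max A B * rho z) :=
    Real.exp_le_exp.2 (mul_le_mul_of_nonneg_right (le_max_right _ _) (rho_nonneg z))
  exact mul_le_mul (le_max_left _ _) h1 (Real.exp_pos _).le (hA.le.trans (le_max_left _ _))

/-- the interpolation hypothesis -/
def Univ (a : ℕ → ℂ) (p : ℕ → ℕ) : Prop :=
  ∀ lam : ℕ → ℕ → ℂ, (∀ n, ∀ κ < p n, ‖lam n κ‖ ≤ 1) →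
    ∃ g : ℂ → ℂ, Differentiable ℂ g ∧ (∃ N : ℝ, 0 ≤ N ∧ Bd N g) ∧ Interp a p g lam

/-- the array which is `1` at `(n, κ)` and `0` elsewhere -/
def delta (t : ℕ × ℕ) : ℕ → ℕ → ℂ := fun n κ => if (n, κ) = t then 1 else 0

lemma one_mem_cb : (1 : ℂ) ∈ closedBall (0:ℂ) 1 := by simp
lemma zero_mem_cb : (0 : ℂ) ∈ closedBall (0:ℂ) 1 := by simp

theorem baire {a : ℕ → ℂ} {p : ℕ → ℕ} (hU : Univ a p) :
    ∃ N : ℝ, 0 < N ∧ ∀ t : ℕ × ℕ, ∃ g : ℂ → ℂ, Differentiable ℂ g ∧ Bd N g ∧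
      Interp a p g (delta t) := by
  classical
  have hcov : ⋃ N : ℕ, XN a p N = (univ : Set X) := by
    rw [eq_univ_iff_forall]
    intro lam
    obtain ⟨g, h1, ⟨N, hN, h2⟩, h3⟩ := hU (fun n κ => (lam (n, κ) : ℂ)) (by
      intro n κ _
      have := (lam (n, κ)).2
      rwa [mem_closedBall, dist_zero_right] at this)
    obtain ⟨M, hM⟩ := exists_nat_ge N
    rw [mem_iUnion]
    exact ⟨M, g, h1, bd_mono hN hM h2, h3⟩
  have : Nonempty X := ⟨fun _ => ⟨0, zero_mem_cb⟩⟩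
  obtain ⟨N, lam0, hlam0⟩ := nonempty_interior_of_iUnion_of_closed
    (fun N : ℕ => isClosed_XN a p (Nat.cast_nonneg N)) hcov
  obtain ⟨I, u, hu, hsub⟩ := isOpen_pi_iff.1 isOpen_interior lam0 hlam0
  have hag : ∀ lam : X, (∀ t ∈ I, lam t = lam0 t) → lam ∈ XN a p N := by
    intro lam h
    apply interior_subset (hsub _)
    intro t ht
    rw [h t ht]
    exact (hu t ht).2
  have hall : ∀ t : ℕ × ℕ, ∃ Nt : ℝ, 0 ≤ Nt ∧ ∃ g : ℂ → ℂ, Differentiable ℂ g ∧ Bd Nt g ∧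
      Interp a p g (delta t) := by
    intro t
    obtain ⟨g, h1, ⟨N, hN, h2⟩, h3⟩ := hU (delta t) (by
      intro n κ _
      unfold delta
      split_ifs <;> simp)
    exact ⟨N, hN, g, h1, h2, h3⟩
  choose Nt hNt hgt using hall
  have hsum0 : 0 ≤ ∑ t ∈ I, Nt t := Finset.sum_nonneg fun t _ => hNt t
  refine ⟨2 * N + ∑ t ∈ I, Nt t + 1, by positivity, fun t => ?_⟩
  by_cases ht : t ∈ I
  · obtain ⟨g, h1, h2, h3⟩ := hgt t
    refine ⟨g, h1, bd_mono (hNt t) ?_ h2, h3⟩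
    have h4 : Nt t ≤ ∑ t ∈ I, Nt t := Finset.single_le_sum (fun t _ => hNt t) ht
    have : (0:ℝ) ≤ 2 * N := by positivity
    linarith
  · set lam1 : X := fun s => if s ∈ I then lam0 s else if s = t then ⟨1, one_mem_cb⟩
      else ⟨0, zero_mem_cb⟩ with hl1
    set lam2 : X := fun s => if s ∈ I then lam0 s else ⟨0, zero_mem_cb⟩ with hl2
    obtain ⟨g1, d1, b1, i1⟩ := hag lam1 (fun s hs => by simp [hl1, hs])
    obtain ⟨g2, d2, b2, i2⟩ := hag lam2 (fun s hs => by simp [hl2, hs])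
    refine ⟨g1 - g2, d1.sub d2, ?_, ?_⟩
    · intro z
      have h1 := b1 z
      have h2 := b2 z
      have h3 : ‖(g1 - g2) z‖ ≤ ‖g1 z‖ + ‖g2 z‖ := norm_sub_le _ _
      have h4 : Real.exp (N * rho z) ≤ Real.exp ((2 * N + ∑ t ∈ I, Nt t + 1) * rho z) := by
        apply Real.exp_le_exp.2
        apply mul_le_mul_of_nonneg_right _ (rho_nonneg z)
        have : (0:ℝ) ≤ N := by positivity
        linarith
      have h5 : (2 * (N:ℝ)) * Real.exp (N * rho z) ≤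
          (2 * N + ∑ t ∈ I, Nt t + 1) * Real.exp ((2 * N + ∑ t ∈ I, Nt t + 1) * rho z) := by
        apply mul_le_mul (by linarith) h4 (Real.exp_pos _).le
        positivity
      linarith
    · intro n κ hκ
      rw [iteratedDeriv_sub (d1.contDiff.contDiffAt) (d2.contDiff.contDiffAt), sub_div,
        i1 n κ hκ, i2 n κ hκ]
      unfold delta
      by_cases hnI : (n, κ) ∈ I
      · have hne : (n, κ) ≠ t := fun h => ht (h ▸ hnI)
        simp [hl1, hl2, hnI, hne]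
      · by_cases hne : (n, κ) = t
        · rw [hne] at hnI
          simp [hl1, hl2, hne, hnI]
        · simp [hl1, hl2, hnI, hne]

end Pool.Agent.TH218.UI
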