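import Pool.Agent.TH218.UI2

set_option autoImplicit false

open Set Filter Topology Metric MeasureTheory

namespace Pool.Agent.TH218.UI

/-- separation radius -/
noncomputable def sep (N : ℝ) (z : ℂ) : ℝ := 1 / (2 * ((N + 1) * Real.exp ((N + 1) * (rho z + 4))))

lemma sep_pos {N : ℝ} (hN : 0 < N) (z : ℂ) : 0 < sep N z := by
  unfold sep; positivity

lemma sep_le {N : ℝ} (hN : 0 < N) (z : ℂ) : sep N z ≤ 1 / 2 := by
  unfold sep
  apply one_div_le_one_div_of_le (by norm_num)
  have h1 : 1 ≤ Real.exp ((N + 1) * (rho z + 4)) := Real.one_le_exp (by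
    have := rho_nonneg z
    positivity)
  nlinarith

lemma separation {a : ℕ → ℂ} {p : ℕ → ℕ} (hp : ∀ n, 1 ≤ p n) {N : ℝ} (hN : 0 < N)
    (h : ∀ t : ℕ × ℕ, ∃ g : ℂ → ℂ, Differentiable ℂ g ∧ Bd N g ∧ Interp a p g (delta t))
    {n m : ℕ} (hnm : m ≠ n) : sep N (a n) ≤ dist (a m) (a n) := by
  obtain ⟨g, hd, hb, hi⟩ := h (n, 0)
  have h1 : g (a n) = 1 := by
    have := hi n 0 (hp n)
    simpa [delta, iteratedDeriv_zero] using this
  have h2 : g (a m) = 0 := by
    have := hi m 0 (hp m)
    simpa [delta, iteratedDeriv_zero, hnm] using this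
  by_contra hcon
  push Not at hcon
  have hlt1 : dist (a m) (a n) < 1 := by
    have := sep_le hN (a n)
    linarith
  set M := (N + 1) * Real.exp ((N + 1) * (rho (a n) + 4)) with hM
  have hM1 : 1 ≤ M := by
    have h1 : 1 ≤ Real.exp ((N + 1) * (rho (a n) + 4)) := Real.one_le_exp (by
      have := rho_nonneg (a n)
      positivity)
    nlinarith
  have hbM : ∀ w ∈ ball (a n) 1, ‖g w‖ ≤ M := by
    intro w hw
    refine (hb w).trans ?_
    rw [mem_ball, dist_eq_norm] at hw
    have h3 := rho_le w (a n)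
    have h4 := rho_nonneg w
    have h5 : Real.exp (N * rho w) ≤ Real.exp ((N + 1) * (rho (a n) + 4)) := by
      apply Real.exp_le_exp.2
      have : rho w ≤ rho (a n) + 4 := by linarith
      calc N * rho w ≤ (N + 1) * rho w := by nlinarith
        _ ≤ _ := mul_le_mul_of_nonneg_left this (by linarith)
    exact mul_le_mul (by linarith) h5 (Real.exp_pos _).le (by linarith)
  have key := Complex.dist_le_div_mul_dist_of_mapsTo_ball (f := g) (c := a n) (R₁ := 1)
    (R₂ := 2 * M) hd.differentiableOn (fun w hw => by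
      rw [mem_closedBall, dist_eq_norm]
      have h3 := hbM w hw
      have h4 := hbM (a n) (mem_ball_self one_pos)
      have h5 := norm_sub_le (g w) (g (a n))
      linarith) (z := a m) hlt1
  rw [h1, h2, dist_eq_norm] at key
  simp only [zero_sub, norm_neg, norm_one, div_one] at key
  have h6 : 2 * M * dist (a m) (a n) < 2 * M * sep N (a n) :=
    mul_lt_mul_of_pos_left hcon (by linarith)
  have h7 : 2 * M * sep N (a n) = 1 := by
    unfold sep
    rw [← hM]
    field_simp
  linarith

theorem summable_exp {a : ℕ → ℂ} {N : ℝ} (hN : 0 < N)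
    (hsep : ∀ n m : ℕ, m ≠ n → sep N (a n) ≤ dist (a m) (a n)) :
    Summable fun n => Real.exp (-((2 * N + 4) * rho (a n))) := by
  set w : ℂ → ℝ := fun z => ((1:ℝ) + ‖z‖ ^ 2) ^ (-(4:ℝ) / 2) with hw
  have hint : Integrable w (volume : Measure ℂ) := by
    apply integrable_rpow_neg_one_add_norm_sq
    rw [Complex.finrank_real_complex]
    norm_num
  have hfin : ∫⁻ z, ENNReal.ofReal (w z) < ⊤ := hint.lintegral_lt_top
  set D : ℕ → Set ℂ := fun n => ball (a n) (sep N (a n) / 2) with hD
  have hdisj : Pairwise (Function.onFun Disjoint D) := by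
    intro n m hnm
    apply Metric.ball_disjoint_ball
    have h1 := hsep n m (Ne.symm hnm)
    have h2 := hsep m n hnm
    rw [dist_comm] at h1
    linarith
  have hsum : ∑' n, ∫⁻ z in D n, ENNReal.ofReal (w z) ≠ ⊤ := by
    rw [← lintegral_iUnion (fun n => measurableSet_ball) hdisj]
    exact ne_top_of_le_ne_top hfin.ne (setLIntegral_le_lintegral _ _)
  -- lower bound for each piece
  set K : ℝ := (1 / 16) * (1 / (4 * (N + 1))) ^ 2 * Real.exp (-(8 * (N + 1))) * Real.pi with hK
  have hK0 : 0 < K := by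
    have := Real.pi_pos
    positivity
  have hlow : ∀ n, ENNReal.ofReal (K * Real.exp (-((2 * N + 4) * rho (a n)))) ≤
      ∫⁻ z in D n, ENNReal.ofReal (w z) := by
    intro n
    have h1 : ∀ z ∈ D n, (1 / 16) * Real.exp (-(2 * rho (a n))) ≤ w z := by
      intro z hz
      rw [hD, mem_ball, dist_eq_norm] at hz
      have h2 := sep_le hN (a n)
      have h3 : ‖z - a n‖ ≤ 1 := by linarith
      have h4 : 1 + ‖z‖ ^ 2 ≤ 4 * Real.exp (rho (a n)) := by
        have h5 := one_add_sq_le z (a n)
        have h6 : 1 + ‖z - a n‖ ^ 2 ≤ 2 := by nlinarith [norm_nonneg (z - a n)]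
        have h7 : 1 + ‖a n‖ ^ 2 ≤ Real.exp (rho (a n)) := by
          rw [← Real.log_le_iff_le_exp (by positivity)]
          exact log_le_rho _
        have h8 : 2 * (1 + ‖a n‖ ^ 2) * (1 + ‖z - a n‖ ^ 2) ≤ 2 * (1 + ‖a n‖ ^ 2) * 2 :=
          mul_le_mul_of_nonneg_left h6 (by positivity)
        linarith
      rw [hw]
      simp only
      have e1 : (-(4:ℝ) / 2) = -((2:ℕ) : ℝ) := by norm_num
      rw [e1, Real.rpow_neg (by positivity), Real.rpow_natCast]
      have h9 : (1 + ‖z‖ ^ 2) ^ 2 ≤ (4 * Real.exp (rho (a n))) ^ 2 :=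
        pow_le_pow_left₀ (by positivity) h4 2
      have h10 : ((4 * Real.exp (rho (a n))) ^ 2)⁻¹ ≤ ((1 + ‖z‖ ^ 2) ^ 2)⁻¹ :=
        inv_anti₀ (by positivity) h9
      refine le_trans (le_of_eq ?_) h10
      rw [mul_pow, mul_inv, Real.exp_neg, two_mul, Real.exp_add]
      ring
    calc ENNReal.ofReal (K * Real.exp (-((2 * N + 4) * rho (a n))))
        = ENNReal.ofReal ((1 / 16) * Real.exp (-(2 * rho (a n)))) *
            (ENNReal.ofReal (sep N (a n) / 2) ^ 2 * NNReal.pi) := by
          rw [← ENNReal.ofReal_pow (by have := sep_pos hN (a n); positivity)]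
          rw [show ((NNReal.pi : NNReal) : ENNReal) = ENNReal.ofReal Real.pi from ?_]
          · rw [← ENNReal.ofReal_mul (by positivity), ← ENNReal.ofReal_mul (by positivity)]
            congr 1
            have e2 : (sep N (a n) / 2) ^ 2 =
                (1 / (4 * (N + 1))) ^ 2 * Real.exp (-(8 * (N + 1))) *
                  Real.exp (-(2 * (N + 1) * rho (a n))) := by
              unfold sep
              rw [mul_assoc, ← Real.exp_add]
              have e3 : -(8 * (N + 1)) + -(2 * (N + 1) * rho (a n)) =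
                -((N + 1) * (rho (a n) + 4)) + -((N + 1) * (rho (a n) + 4)) := by ring
              rw [e3, Real.exp_add, Real.exp_neg]
              field_simp
              ring
            rw [e2, hK]
            have e4 : Real.exp (-((2 * N + 4) * rho (a n))) =
                Real.exp (-(2 * rho (a n))) * Real.exp (-(2 * (N + 1) * rho (a n))) := by
              rw [← Real.exp_add]; congr 1; ring
            rw [e4]
            ring
          · rw [ENNReal.ofReal, Real.toNNReal_of_nonneg Real.pi_pos.le]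
            rfl
      _ = ∫⁻ z in D n, ENNReal.ofReal ((1 / 16) * Real.exp (-(2 * rho (a n)))) := by
          rw [setLIntegral_const, hD, Complex.volume_ball]
      _ ≤ _ := by
          apply setLIntegral_mono' measurableSet_ball
          intro z hz
          exact ENNReal.ofReal_le_ofReal (h1 z hz)
  have hs2 : ∑' n, ENNReal.ofReal (K * Real.exp (-((2 * N + 4) * rho (a n)))) ≠ ⊤ :=
    ne_top_of_le_ne_top hsum (ENNReal.tsum_le_tsum hlow)
  have hs3 := ENNReal.summable_toReal hs2
  have hs4 : Summable fun n => K * Real.exp (-((2 * N + 4) * rho (a n))) := by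
    refine hs3.congr fun n => ?_
    rw [ENNReal.toReal_ofReal (by positivity)]
  have := hs4.mul_left (1 / K)
  refine this.congr fun n => ?_
  field_simp

end Pool.Agent.TH218.UI
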